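import Pool.Agent.X140.FL.Defs
import Pool.Agent.X180.OD.BaseDefs

/-!
Definitions: fibres of varieties with canonical singularities which correspond to products of
orbifolds over the constants and moving log canonical arrangements of hyperplanes.
-/

set_option autoImplicit false

open FF Pool.Agent.W602.GT Pool.Agent.Y172 Pool.Agent.Y191 Pool.Agent.X180.OD

namespace Pool.Agent.X140.FL

variable {K : Type} [Field K] [Algebra ℂ K] {N : ℕ}

/-- Let `K` and `L` be the function fields of `X` and `W`, with a dominant rational map `X ⇢ W`. The
fibres of `X` over `W` correspond to products of an orbifold over the constants and a moving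
arrangement of hyperplanes: there are a variety `X'`, with the function field `K'`, with a
generically finite map `X' ⇢ X`, ramified anywhere, and a generically finite rational map of `X'` to
`W' × V × P^{r_1} × ... × P^{r_c}`, where `W'` is finite over `W`, compatible with the maps to `W` (`K'`
is algebraic over the field generated by `L`, `M` and the `u ⟨j, k⟩`). `M` is the function field of
`V`, a variety of dimension `f`, `a p ≥ 0` the log discrepancy of the orbifold at the place `p` of
`M`, if `p` is the image of a prime divisor of `X`, and the Kodaira dimension of the orbifold `(V, a)`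
is at least `lam`. The `u ⟨j, k⟩` are the affine coordinates in the projective spaces, whose
dimensions `r j` are positive, and `A j i` are the coefficients of hyperplanes, algebraic over `L`,
with weights `w j i` in `[0, 1]` such that the arrangement is log canonical (`LcArr`). The
multiplicities are bounded at the places over the prime divisors of `X` which dominate `W`
(`ProductMultiplicities`), and at the places over the prime divisors of the product
`P^{r_1} × ... × P^{r_c}` over `W' × V` (`RamK`). -/
def CanonicalProductFibres (y : Fin (N + 1) → K) (L : IntermediateField ℂ K) (f lam : ℕ) {c : ℕ}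
    (r s : Fin c → ℕ) (w : ∀ j, Fin (s j) → ℚ) : Prop :=
  (∀ j, 1 ≤ r j ∧ ∀ i, 0 ≤ w j i ∧ w j i ≤ 1) ∧
  ∃ (K' : Type) (_ : Field K') (_ : Algebra ℂ K') (_ : Algebra K K') (_ : IsScalarTower ℂ K K')
    (_ : FiniteDimensional K K') (M : IntermediateField ℂ K') (a : Place ℂ M → ℝ)
    (A : ∀ j, Fin (s j) → Fin (r j + 1) → K') (u : (Σ j, Fin (r j)) → K'),
    Algebra.EssFiniteType ℂ M ∧ Algebra.trdeg ℂ M = f ∧
    (∀ p ∈ images {P | IsPrimeDivisor y P} K' M, 0 ≤ a p) ∧
    OrbifoldKodGe M f (images {P | IsPrimeDivisor y P} K' M) a lam ∧ LcArr (upF K' L) A w ∧
    (∀ z : K', IsAlgebraic (IntermediateField.adjoin ℂ ((upF K' L : Set K') ∪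
      ((M : Set K') ∪ Set.range u))) z) ∧
    ProductMultiplicities L M a A u w {P | IsPrimeDivisor y P} (fun _ => 0) ∧
    RamK K (IntermediateField.adjoin ℂ ((upF K' L : Set K') ∪ (M : Set K'))) A u w

end Pool.Agent.X140.FL
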