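import Pool.Agent.X140.FL.Top
import Pool.Agent.X140.FL.CanDefs
import Pool.Agent.X180.OD.Base

/-!
Varieties with canonical singularities whose fibres correspond to products of orbifolds over the
constants and moving arrangements of hyperplanes.
-/

set_option autoImplicit false
set_option linter.overlappingInstances false

open FF Pool.Agent.W602.GT Pool.Agent.Y172 Pool.Agent.Y191 Pool.Agent.X180.Orb
open Pool.Agent.X180.OP Pool.Agent.X180.OD
open Pool.Agent.X180.TP (dims exists_idx)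
open Pool.Agent.X180.Tow (HasForms dn trdeg_dn hor_nonneg hor_le)
open Pool.Agent.X180.Iso (hor)

namespace Pool.Agent.X140.FL

variable {K : Type} [Field K] [Algebra ℂ K]

/-- the forms -/
theorem can_forms {N l c f κ : ℕ}
    {E : Fin (l + 1) → IntermediateField ℂ K} {D : Fin (l + 1) → ℕ} {e lam : Fin l → ℕ}
    {r s : Fin c → ℕ} {y : Fin (N + 1) → K}
    (hy : IsCanonicalVariety y (D (Fin.last l) + f + ∑ j, r j))
    (hT : IsTower {P | IsPrimeDivisor y P} (fun _ => 0) E D e lam) {w : ∀ j, Fin (s j) → ℚ}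
    (hF : CanonicalProductFibres y (E (Fin.last l)) f κ r s w)
    (hws : ∀ j, (r j + 1 : ℚ) ≤ ∑ i, w j i) :
    HasForms (D 0 + (∑ i, e i + (∑ j, r j + f))) {P | IsPrimeDivisor y P} (fun _ => 0) (E 0)
      (∑ i, e i + (∑ j, r j + f)) (∑ i, lam i + (κ + big r s w)) := by
  obtain ⟨hw, K', _, _, _, _, _, M, a, B, u, hess, hM, ha, hk, hB, hdom, hH, hC⟩ := hF
  obtain ⟨κ', hκ, hκs⟩ := exists_idx r s w
  have hn0 : D (Fin.last l) + f + ∑ j, r j = D (Fin.last l) + ((∑ j, r j) + f) := by omega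
  have hK : Algebra.trdeg ℂ K = (D (Fin.last l) + ((∑ j, r j) + f) : ℕ) := by
    rw [hy.2.1, hn0]
  have h0 : HasForms (D (Fin.last l) + ((∑ j, r j) + f)) {P | IsPrimeDivisor y P}
      (hor (E (Fin.last l)) fun _ => 0) (E (Fin.last l)) ((∑ j, r j) + f)
      (κ + Pool.Agent.X180.TP.big r s w) :=
    lco_low hK (Pool.Agent.X180.Iso.trdeg_rel' hK (hT.1 _)) M hM hB
      (fun j i => ((hw j).2 i).1) hws hdom hκ hκs ha hk
      (fun P hP => hor_nonneg le_rfl) (mult_hor hH)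
  have h1 := (tower_forms (fun _ _ => le_rfl) hT hK rfl h0).mono (δ' := fun _ => 0)
    (fun P _ => (hor_zero' _ P).le)
  have hn : D (Fin.last l) + ((∑ j, r j) + f) = D 0 + (∑ i, e i + (∑ j, r j + f)) := by
    rw [dims fun i => (hT.2 i).2.1]
    omega
  rw [hn] at h1
  exact h1

/-- **Nonvanishing.** -/
theorem can_non' {N l c k f κ : ℕ}
    {E : Fin (l + 1) → IntermediateField ℂ K} {D : Fin (l + 1) → ℕ} {e lam : Fin l → ℕ}
    {r s : Fin c → ℕ} {y : Fin (N + 1) → K}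
    (hy : IsCanonicalVariety y (D (Fin.last l) + f + ∑ j, r j))
    (hT : IsTower {P | IsPrimeDivisor y P} (fun _ => 0) E D e lam)
    {w : ∀ j, Fin (s j) → ℚ} (hF : CanonicalProductFibres y (E (Fin.last l)) f κ r s w)
    (hbase : ∀ lam' : ℕ, HasForms (D 0 + (∑ i, e i + (∑ j, r j + f))) {P | IsPrimeDivisor y P}
      (fun _ => 0) (E 0) (∑ i, e i + (∑ j, r j + f)) lam' →
      KodairaGe (D 0 + (∑ i, e i + (∑ j, r j + f))) {P | IsPrimeDivisor y P} (fun _ => 0)
        (k + lam')) :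
    CanonicalNonvanishing y (D (Fin.last l) + f + ∑ j, r j) (k + ∑ i, lam i + κ + big r s w)
      r s w := by
  have h1 := can_forms hy hT hF
  obtain ⟨hw, K', _, _, _, _, _, M, a, B, u, hess, hM, ha, hk, hB, hdom, hH, hR⟩ := hF
  have hn0 : D (Fin.last l) + f + ∑ j, r j = D (Fin.last l) + ((∑ j, r j) + f) := by omega
  have hK : Algebra.trdeg ℂ K = (D (Fin.last l) + ((∑ j, r j) + f) : ℕ) := by
    rw [hy.2.1, hn0]
  have hu := basis_comp (Pool.Agent.X180.Iso.trdeg_rel' hK (hT.1 _)) hM hdom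
  have hB' := lcArr_up hB (L' := IntermediateField.adjoin ℂ
    ((upF K' (E (Fin.last l)) : Set K') ∪ (M : Set K')))
    (fun z hz => IntermediateField.subset_adjoin _ _ (Or.inl hz))
  have hC := hR.cor hy.2.1 hy.2.2 hu
  have h00 : Effective y (0 : Place ℂ K → ℚ) := ⟨fun _ _ => le_rfl, by simp⟩
  have hn : D (Fin.last l) + f + ∑ j, r j = D 0 + (∑ i, e i + (∑ j, r j + f)) := by
    rw [dims fun i => (hT.2 i).2.1]
    omega
  refine ⟨fun hws => ?_, (lc_ab hy.1 hy.2.1 h00 hB'.1 hu (fun j => (hw j).1)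
    (fun j i => ((hw j).2 i).1) (fun j i => ((hw j).2 i).2) hC).1⟩
  refine lc_nv hy.1 hy.2.1 h00 hB'.1 hu (fun j => (hw j).1)
    (fun j i => ((hw j).2 i).1) (fun j i => ((hw j).2 i).2) hC hws (by omega) ?_
  have h2 := hbase _ (h1 hws)
  rw [← hn, ← add_assoc k, ← add_assoc (k + ∑ i, lam i)] at h2
  have h3 : (fun P : Place ℂ K => (((0 : Place ℂ K → ℚ) P : ℚ) : ℝ)) = fun _ => 0 := by
    funext P
    simp
  rw [h3]
  exact h2

/-- **Abundance.** -/
theorem can_ab' {N l c f : ℕ}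
    {E : Fin (l + 1) → IntermediateField ℂ K} {D : Fin (l + 1) → ℕ} {e lam : Fin l → ℕ}
    {r s : Fin c → ℕ} {y : Fin (N + 1) → K}
    (hy : IsCanonicalVariety y (D (Fin.last l) + f + ∑ j, r j))
    (hT : IsTower {P | IsPrimeDivisor y P} (fun _ => 0) E D e lam) (hle : ∀ i, lam i = e i)
    {w : ∀ j, Fin (s j) → ℚ} (hF : CanonicalProductFibres y (E (Fin.last l)) f f r s w)
    (hbase : ∀ lam' : ℕ, HasForms (D 0 + (∑ i, e i + (∑ j, r j + f))) {P | IsPrimeDivisor y P}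
      (fun _ => 0) (E 0) (∑ i, e i + (∑ j, r j + f)) lam' →
      KodairaGe (D 0 + (∑ i, e i + (∑ j, r j + f))) {P | IsPrimeDivisor y P} (fun _ => 0)
        (D 0 + lam')) :
    CanonicalAbundance y (D (Fin.last l) + f + ∑ j, r j) (D (Fin.last l) + f) r s w := by
  have h1 := can_forms hy hT hF
  obtain ⟨hw, K', _, _, _, _, _, M, a, B, u, hess, hM, ha, hk, hB, hdom, hH, hR⟩ := hF
  have hn0 : D (Fin.last l) + f + ∑ j, r j = D (Fin.last l) + ((∑ j, r j) + f) := by omega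
  have hK : Algebra.trdeg ℂ K = (D (Fin.last l) + ((∑ j, r j) + f) : ℕ) := by
    rw [hy.2.1, hn0]
  have hu := basis_comp (Pool.Agent.X180.Iso.trdeg_rel' hK (hT.1 _)) hM hdom
  have hB' := lcArr_up hB (L' := IntermediateField.adjoin ℂ
    ((upF K' (E (Fin.last l)) : Set K') ∪ (M : Set K')))
    (fun z hz => IntermediateField.subset_adjoin _ _ (Or.inl hz))
  have hC := hR.cor hy.2.1 hy.2.2 hu
  have h00 : Effective y (0 : Place ℂ K → ℚ) := ⟨fun _ _ => le_rfl, by simp⟩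
  have hsum : D (Fin.last l) = D 0 + ∑ i, e i := dims fun i => (hT.2 i).2.1
  have hn : D (Fin.last l) + f + ∑ j, r j = D 0 + (∑ i, e i + (∑ j, r j + f)) := by
    rw [hsum]
    omega
  have h4 := lc_ab hy.1 hy.2.1 h00 hB'.1 hu (fun j => (hw j).1)
    (fun j i => ((hw j).2 i).1) (fun j i => ((hw j).2 i).2) hC
  refine ⟨fun hws => h4.2 _ hws (big_sum hws) ?_, h4.1⟩
  have h2 := h1 hws
  rw [show ∑ i, lam i = ∑ i, e i from Finset.sum_congr rfl fun i _ => hle i] at h2
  have h3 := hbase _ h2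
  rw [← hn, ← add_assoc (D 0), ← hsum, ← add_assoc (D (Fin.last l))] at h3
  have h5 : (fun P : Place ℂ K => (((0 : Place ℂ K → ℚ) P : ℚ) : ℝ)) = fun _ => 0 := by
    funext P
    simp
  rw [h5]
  exact h3

end Pool.Agent.X140.FL
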