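import Pool.Agent.Y191.LcLow

/-!
Definitions: fibres which correspond to products of orbifolds over the constants and moving log
canonical arrangements of hyperplanes.
-/

set_option autoImplicit false

open FF Pool.Agent.W602.GT Pool.Agent.Y172 Pool.Agent.Y191

namespace Pool.Agent.X140.FL

section

variable {K K' : Type} [Field K] [Field K'] [Algebra ℂ K] [Algebra ℂ K'] [Algebra K K']
  [IsScalarTower ℂ K K'] [FiniteDimensional K K'] {c : ℕ} {r q : Fin c → ℕ}

/-- The condition on the multiplicities at the prime divisors `P` of `X` in `S` which dominate `W`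
(`P` is trivial on the function field `L` of `W`). `Q` is a place over `P` of the finite extension
`K'` of `K`, with ramification index `ε`, `1 - δ P` is the log discrepancy of `P`, and the `e j i` are
the multiplicities at `Q` of the hyperplanes `A j i = 0`, with weights `w j i`; `mx A j (e j)` is the
greatest sum of `r j + 1` of the `e j i` whose hyperplanes have no common point; `a p` is the log
discrepancy of the orbifold with the function field `M` at the place `p` of `M`. If `Q` lies over `p`
with ramification index `ν`, then `ε (1 - δ P) ≤ ∑ (mx A j (e j) - ∑ w j i * e j i) + ν * a p`. If `Q`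
is trivial on `M` then `ε (1 - δ P) ≤ ∑ (mx A j (e j) - ∑ w j i * e j i)`, or `ε (1 - δ P) ≤ 1`, if all
`e j i` are zero. -/
def ProductMultiplicities (L : IntermediateField ℂ K) (M : IntermediateField ℂ K')
    (a : Place ℂ M → ℝ) (A : ∀ j, Fin (q j) → Fin (r j + 1) → K') (u : (Σ j, Fin (r j)) → K')
    (w : ∀ j, Fin (q j) → ℚ) (S : Set (Place ℂ K)) (δ : Place ℂ K → ℝ) : Prop :=
  ∀ P ∈ S, (∀ f ∈ L, f ≠ 0 → P.ord f = 0) → ∀ (Q : Place ℂ K') (ε : ℕ), Over Q P ε →
    ∀ (c' : Fin c → ℤ) (e : ∀ j, Fin (q j) → ℕ),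
      (∀ j, MOrd Q (A j) (hcd u j) (c' j) (e j)) →
      ((∀ f : M, Q.ord (f : K') = 0) → (ε : ℝ) * (1 - δ P) ≤
        if ∃ j i, e j i ≠ 0 then ∑ j, ((mx A j (e j) : ℝ) - ∑ i, (w j i : ℝ) * e j i) else 1) ∧
      ∀ (p : Place ℂ M) (ν : ℕ), Over Q p ν → (ε : ℝ) * (1 - δ P) ≤
        ∑ j, ((mx A j (e j) : ℝ) - ∑ i, (w j i : ℝ) * e j i) + ν * a p

end

end Pool.Agent.X140.FL
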