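import Pool.Agent.X140.FL.Ind
import Pool.Agent.X180.Tow.Sys

/-!
The orders of the forms of a log canonical arrangement of hyperplanes times the determinant of some
more functions.
-/

set_option autoImplicit false
set_option linter.overlappingInstances false
set_option linter.unusedSectionVars false

open FF Pool.Agent.W602.GT Pool.Agent.W603.LV Pool.Agent.TH585.SV Pool.Agent.W619.PQ
open Pool.Agent.W619.Y Pool.Agent.Y172 Pool.Agent.Y191 Pool.Agent.X180.Iso Pool.Agent.X140.EF

namespace Pool.Agent.X140.FL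

variable {K K' : Type} [Field K] [Field K'] [Algebra ℂ K] [Algebra ℂ K'] [Algebra K K']
  [IsScalarTower ℂ K K'] [FiniteDimensional K K'] {c s e : ℕ} {r q : Fin c → ℕ}
variable {A : ∀ j, Fin (q j) → Fin (r j + 1) → K'} {u : (Σ j, Fin (r j)) → K'}
variable {L : IntermediateField ℂ K} {w : ∀ j, Fin (q j) → ℚ}

/-- **The orders of the forms of the arrangement.** -/
theorem fac_ge {M : ℕ} (hL : Algebra.trdeg L K = e)
    (σ : (Σ j, Fin (r j)) ⊕ Fin s ≃ Fin e)
    (hA : LcArr (upF K' L) A w) (hl : ∀ j i, lmv A u j i ≠ 0) (hw0 : ∀ j i, 0 ≤ w j i)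
    (hws : ∀ j, (r j + 1 : ℚ) ≤ ∑ i, w j i) {X : Set (Place ℂ K)}
    {δ : Place ℂ K → ℝ} (hδ : ∀ P ∈ X, 0 ≤ δ P) (hH : LcHor L A u w X δ)
    {v : ∀ j, Fin (q j) → ℕ} {J : Fin M → ∀ j, Fin (r j + 1) → Fin (q j)} (hadm : Adm r q w M v)
    (hJ : ∀ j (f : Fin (q j) → K'), ∏ t, ∏ k, f (J t j k) = ∏ i, f i ^ v j i)
    {P : Place ℂ K} (hP : P ∈ X) {G : Fin e → Derivation L K K}
    {G' : Fin e → Derivation (upF K' L) K' K'} (hG : ∀ i f, P.Reg f → P.Reg (G i f))
    (hG' : ∀ i f, G' i (algebraMap K K' f) = algebraMap K K' (G i f))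
    {Q : Place ℂ K'} {ε : ℕ} (hQ : Over Q P ε) {z : Fin s → K'} (hz : ∀ l, Q.Reg (z l)) :
    GeR Q (-(M * (ε * δ P))) ((∏ t, cdet A (J t)) *
      cdt (fun c => (G' (σ c)).restrictScalars ℂ) u z ^ M / ∏ j, ∏ i, lmv A u j i ^ v j i) := by
  classical
  have hkA : ∀ l j i k, ((G' (σ l)).restrictScalars ℂ) (A j i k) = 0 := fun l j i k =>
    der_alg (G' (σ l)) ((hA.1 j i).2 k)
  have hM0 : (0 : ℝ) ≤ M := Nat.cast_nonneg _
  have hε0 : (0 : ℝ) ≤ ε := Nat.cast_nonneg _
  by_cases htr : ∀ f ∈ L, f ≠ 0 → P.ord f = 0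
  · have hup : ∀ f ∈ upF K' L, f ≠ 0 → Q.ord f = 0 := by
      rintro f hf hf0
      obtain ⟨a, ha, rfl⟩ := mem_upF.1 hf
      have ha0 : a ≠ 0 := fun h => hf0 (by rw [h, map_zero])
      rw [hQ.2, htr a ha ha0, mul_zero]
    have hAge : ∀ j i k, Ge Q 0 (A j i k) := fun j i k => triv_ge hup ((hA.1 j i).2 k)
    have hC : Ge Q 0 (∏ t, cdet A (J t)) := by
      have := Ge.prod (P := Q) Finset.univ (fun t => cdet A (J t)) (fun _ => 0)
        (fun t _ => triv_ge hup (hA.alg_cdet (J t)))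
      simpa using this
    have ho : ∀ j, ∃ c' ε, MOrd Q (A j) (hcd u j) c' ε := fun j =>
      exists_mord (hAge j) ⟨0, by rw [hcd_zero]; exact one_ne_zero⟩ (hl j)
    choose c' e' ho using ho
    have hlo : ∀ j i, Q.ord (lmv A u j i) = c' j + e' j i := fun j i => (ho j).2.2 i
    have hH' := hH P hP htr Q ε hQ c' e' ho
    have hbas : ∀ j, ∃ I : Fin (r j + 1) → Fin (q j),
        (Matrix.of fun k a => A j (I k) a).det ≠ 0 ∧ mx A j (e' j) = ∑ k, e' j (I k) := by
      intro j
      obtain ⟨I, hI, -⟩ := hA.pos_basis hw0 hws j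
      obtain ⟨I', hI', h2⟩ := Finset.exists_mem_eq_sup (Finset.univ.filter
        fun I : Fin (r j + 1) → Fin (q j) => (Matrix.of fun k a => A j (I k) a).det ≠ 0)
        ⟨I, Finset.mem_filter.2 ⟨Finset.mem_univ _, hI⟩⟩ fun I => ∑ k, e' j (I k)
      exact ⟨I', (Finset.mem_filter.1 hI').2, h2⟩
    choose I hI hIm using hbas
    have hd : ∀ j, (Matrix.of fun k a => A j (I j k) a).det ≠ 0 ∧
        Q.ord (Matrix.of fun k a => A j (I j k) a).det = 0 := fun j =>
      ⟨hI j, triv_ord0 hup (alg_det fun k a => (hA.1 _ _).2 _) (hI j)⟩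
    have hmd := mix_det hL hQ hG hG' σ (f := quo A u I) hz
    by_cases he : ∃ j i, e' j i ≠ 0
    · rw [if_pos he] at hH'
      have h1 := mix_lc (D := fun c => (G' (σ c)).restrictScalars ℂ) (z := z) hadm.1 hC hd hl hkA
        (ν := ε) hmd.1 ho
      rcases h1 with h1 | h1
      · exact Or.inl h1
      right
      have h3 : ((∑ j, ((M : ℤ) * ∑ k, (e' j (I j k) : ℤ) - ∑ i, (v j i : ℤ) * e' j i) -
          M * (ε : ℤ) : ℤ) : ℝ) ≤
          (Q.ord ((∏ t, cdet A (J t)) * cdt (fun c => (G' (σ c)).restrictScalars ℂ) u z ^ M /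
            ∏ j, ∏ i, lmv A u j i ^ v j i) : ℝ) := by exact_mod_cast h1
      refine le_trans ?_ h3
      push_cast
      have h4 : (M : ℝ) * ∑ j, ((mx A j (e' j) : ℝ) - ∑ i, (w j i : ℝ) * e' j i) ≤
          ∑ j, ((M : ℝ) * ∑ k, (e' j (I j k) : ℝ) - ∑ i, (v j i : ℝ) * e' j i) := by
        rw [Finset.mul_sum]
        refine Finset.sum_le_sum fun j _ => ?_
        rw [hIm j, mul_sub, Finset.mul_sum (f := fun i => (w j i : ℝ) * e' j i)]
        push_cast
        refine sub_le_sub_left (Finset.sum_le_sum fun i _ => ?_) _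
        have h5 : (v j i : ℝ) ≤ M * w j i := by exact_mod_cast hadm.2 j i
        have h6 : (0 : ℝ) ≤ e' j i := Nat.cast_nonneg _
        nlinarith
      have h5 := mul_le_mul_of_nonneg_left hH' hM0
      nlinarith
    · rw [if_neg he] at hH'
      push Not at he
      have h1 := mix_lc (D := fun c => (G' (σ c)).restrictScalars ℂ) (z := z) hadm.1 hC hd hl hkA
        (ν := ε - 1) (by
          have h2 := hmd.2 htr (fun l => by
            change Q.ord (lmv A u _ _ / lmv A u _ _) = 0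
            rw [Q.ord_div (hl _ _) (hl _ _), hlo, hlo, he, he, sub_self])
          rw [neg_sub]
          exact h2) ho
      rcases h1 with h1 | h1
      · exact Or.inl h1
      right
      have h2 : ∑ j, ((M : ℤ) * ∑ k, (e' j (I j k) : ℤ) - ∑ i, (v j i : ℤ) * e' j i) = 0 :=
        Finset.sum_eq_zero fun j _ => by simp [he]
      rw [h2, zero_sub] at h1
      have h3 : ((-(M * ((ε : ℤ) - 1)) : ℤ) : ℝ) ≤
          (Q.ord ((∏ t, cdet A (J t)) * cdt (fun c => (G' (σ c)).restrictScalars ℂ) u z ^ M /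
            ∏ j, ∏ i, lmv A u j i ^ v j i) : ℝ) := by exact_mod_cast h1
      refine le_trans ?_ h3
      push_cast
      have h5 := mul_le_mul_of_nonneg_left hH' hM0
      nlinarith
  · push Not at htr
    obtain ⟨a, haL, ha0, hao⟩ := htr
    have h1 : ∀ l, DerLog Q ((G' l).restrictScalars ℂ) := by
      intro l
      have h2 : DerLog P ((G l).restrictScalars ℂ) := by
        intro f
        by_cases hf : f = 0
        · left
          rw [hf, div_zero]
        · exact log_of_const (a := a) (fun f hf => hG l f hf)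
            ((G l).map_algebraMap (⟨a, haL⟩ : L)) hao hf
      exact lift_log hQ h2 (fun f => hG' l f)
    have h2 := mix_log (D := fun c => (G' (σ c)).restrictScalars ℂ) (P := Q) hJ hl hkA hz
      fun l f => (reg_iff_ge _ _).1 (h1 (σ l) f)
    rcases h2 with h2 | h2
    · exact Or.inl h2
    · right
      have h3 : (0 : ℝ) ≤ (Q.ord ((∏ t, cdet A (J t)) *
          cdt (fun c => (G' (σ c)).restrictScalars ℂ) u z ^ M /
            ∏ j, ∏ i, lmv A u j i ^ v j i) : ℝ) := by exact_mod_cast h2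
      have h4 := mul_nonneg hM0 (mul_nonneg hε0 (hδ P hP))
      linarith

/-- the determinant under linear substitutions -/
theorem cdt_sum {K : Type} [Field K] [Algebra ℂ K] {R : Type} [CommSemiring R] [Algebra R K]
    (σ : (Σ j, Fin (r j)) ⊕ Fin s ≃ Fin e) (u : (Σ j, Fin (r j)) → K) (z : Fin s → K)
    (A' : Matrix (Fin e) (Fin e) K) (D : Fin e → Derivation R K K) :
    cdt (fun c => ∑ l, A' (σ c) l • D l) u z = A'.det * cdt (fun c => D (σ c)) u z := by
  classical
  unfold cdt
  have h1 : (Matrix.of fun c c' => (∑ l, A' (σ c) l • D l) (Sum.elim u z c')) =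
      A'.submatrix σ σ * Matrix.of fun c c' => (D (σ c)) (Sum.elim u z c') := by
    ext c c'
    rw [Matrix.mul_apply]
    simp only [Matrix.of_apply, Matrix.submatrix_apply]
    have h2 : ∀ z : K, (∑ l, A' (σ c) l • D l) z = ∑ l, A' (σ c) l * D l z := by
      intro z
      rw [← Derivation.coeFnAddMonoidHom_apply, map_sum, Finset.sum_apply]
      rfl
    rw [h2, ← σ.sum_comp]
  rw [h1, Matrix.det_mul, Matrix.det_submatrix_equiv_self]

/-- the determinant under a change of the last functions -/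
theorem cdt_change {K : Type} [Field K] [Algebra ℂ K] {D : (Σ j, Fin (r j)) ⊕ Fin s →
    Derivation ℂ K K} (u : (Σ j, Fin (r j)) → K) {y z : Fin s → K} {Z : Matrix (Fin s) (Fin s) K}
    (hZ : ∀ c l, D c (y l) = ∑ b, Z l b * D c (z b)) : cdt D u y = cdt D u z * Z.det := by
  classical
  have h1 : (Matrix.of fun c c' => D c (Sum.elim u y c')) =
      (Matrix.of fun c c' => D c (Sum.elim u z c')) * Matrix.fromBlocks 1 0 0 Z.transpose := by
    ext c c'
    rw [Matrix.mul_apply, Fintype.sum_sum_type]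
    rcases c' with c' | l
    · simp only [Matrix.of_apply, Sum.elim_inl, Sum.elim_inr, Matrix.fromBlocks_apply₁₁,
        Matrix.fromBlocks_apply₂₁, Matrix.zero_apply, mul_zero, Finset.sum_const_zero, add_zero,
        Matrix.one_apply, mul_ite, mul_one, Finset.sum_ite_eq', Finset.mem_univ, if_true]
    · simp only [Matrix.of_apply, Sum.elim_inl, Sum.elim_inr, Matrix.fromBlocks_apply₁₂,
        Matrix.fromBlocks_apply₂₂, Matrix.zero_apply, mul_zero, Finset.sum_const_zero, zero_add,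
        Matrix.transpose_apply]
      rw [hZ]
      exact Finset.sum_congr rfl fun b _ => mul_comm _ _
  unfold cdt
  rw [h1, Matrix.det_mul, Matrix.det_fromBlocks_zero₂₁, Matrix.det_one, one_mul,
    Matrix.det_transpose]

end Pool.Agent.X140.FL
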