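import Pool.Agent.X140.FL.FacGe

/-!
The orders of the forms of a log canonical arrangement of hyperplanes times the determinant of some
more functions, at places at which the product of these functions vanishes.
-/

set_option autoImplicit false
set_option linter.overlappingInstances false
set_option linter.unusedSectionVars false

open FF Pool.Agent.W602.GT Pool.Agent.W603.LV Pool.Agent.TH585.SV Pool.Agent.W619.PQ
open Pool.Agent.W619.Y Pool.Agent.Y172 Pool.Agent.Y191 Pool.Agent.X180.Iso Pool.Agent.X140.EF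

namespace Pool.Agent.X140.FL

/-- all columns logarithmic -/
theorem mdet_log {K : Type} [Field K] [Algebra ℂ K] {c s : ℕ} {r : Fin c → ℕ} {R : Type}
    [CommSemiring R] [Algebra R K] (D : (Σ j, Fin (r j)) ⊕ Fin s → Derivation R K K)
    (f : (Σ j, Fin (r j)) → K) {z : Fin s → K} (hz : ∀ l, z l ≠ 0) :
    mdet D f z = (∏ l, z l) *
      (Matrix.of fun c c' => D c (Sum.elim f z c') / Sum.elim f z c').det := by
  classical
  have h1 : (Matrix.of fun c c' => Sum.elim (fun c' : Σ j, Fin (r j) => D c (f c') / f c')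
      (fun l => D c (z l)) c') = (Matrix.of fun c c' => D c (Sum.elim f z c') /
        Sum.elim f z c') * Matrix.diagonal (Sum.elim (fun _ => 1) z) := by
    ext c c'
    rw [Matrix.mul_diagonal, Matrix.of_apply, Matrix.of_apply]
    rcases c' with c' | l
    · simp only [Sum.elim_inl, mul_one]
    · simp only [Sum.elim_inr]
      rw [div_mul_cancel₀ _ (hz l)]
  unfold mdet
  rw [h1, Matrix.det_mul, Matrix.det_diagonal, Fintype.prod_sum_type]
  simp [mul_comm]

variable {K K' : Type} [Field K] [Field K'] [Algebra ℂ K] [Algebra ℂ K'] [Algebra K K']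
  [IsScalarTower ℂ K K'] [FiniteDimensional K K'] {c s e : ℕ} {r q : Fin c → ℕ}
variable {A : ∀ j, Fin (q j) → Fin (r j + 1) → K'} {u : (Σ j, Fin (r j)) → K'}
variable {L : IntermediateField ℂ K} {w : ∀ j, Fin (q j) → ℚ}

/-- the determinant -/
theorem mix_detO (hL : Algebra.trdeg L K = e) {P : Place ℂ K} {Q : Place ℂ K'} {ε : ℕ}
    (hQ : Over Q P ε) {G : Fin e → Derivation L K K} (hG : ∀ i f, P.Reg f → P.Reg (G i f))
    {G' : Fin e → Derivation (upF K' L) K' K'}
    (hG' : ∀ i f, G' i (algebraMap K K' f) = algebraMap K K' (G i f))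
    (σ : (Σ j, Fin (r j)) ⊕ Fin s ≃ Fin e) (f : (Σ j, Fin (r j)) → K') {z : Fin s → K'}
    (hz : ∀ l, z l ≠ 0) {t : ℕ} (ht : Ge Q t (∏ l, z l)) :
    Ge Q (t - ε) (mdet (fun c => G' (σ c)) f z) := by
  classical
  rw [mdet_log _ f hz]
  have h := (lift_det hL hQ hG hG' (f := fun l => Sum.elim f z (σ.symm l))).1
  have h1 : (Matrix.of fun c c' => G' (σ c) (Sum.elim f z c') / Sum.elim f z c') =
      (Matrix.of fun i l => G' i (Sum.elim f z (σ.symm l)) /
        Sum.elim f z (σ.symm l)).submatrix σ σ := by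
    ext c c'
    rw [Matrix.submatrix_apply, Matrix.of_apply, Matrix.of_apply, Equiv.symm_apply_apply]
  rw [h1, Matrix.det_submatrix_equiv_self]
  have h2 := ht.mul h
  rwa [← sub_eq_add_neg] at h2

/-- the estimate at the places at which the vector fields are logarithmic -/
theorem mix_logO {M : ℕ} {P : Place ℂ K'} {v : ∀ j, Fin (q j) → ℕ}
    {J : Fin M → ∀ j, Fin (r j + 1) → Fin (q j)}
    (hJ : ∀ j (f : Fin (q j) → K'), ∏ t, ∏ k, f (J t j k) = ∏ i, f i ^ v j i)
    (hl : ∀ j i, lmv A u j i ≠ 0) {D : (Σ j, Fin (r j)) ⊕ Fin s → Derivation ℂ K' K'}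
    (hD : ∀ c j i k, D c (A j i k) = 0) {z : Fin s → K'} (hz : ∀ l, z l ≠ 0) {ν : ℕ}
    (hν : Ge P ν (∏ l, z l)) (hlog : ∀ c (f : K'), Ge P 0 (D c f / f)) :
    Ge P (M * ν) ((∏ t, cdet A (J t)) * cdt D u z ^ M / ∏ j, ∏ i, lmv A u j i ^ v j i) := by
  classical
  have hden : ∏ j, ∏ i, lmv A u j i ^ v j i ≠ 0 :=
    Finset.prod_ne_zero_iff.2 fun j _ => Finset.prod_ne_zero_iff.2 fun i _ => pow_ne_zero _ (hl j i)
  have h1 : ∏ t : Fin M, ∏ j, ∏ k, lmv A u j (J t j k) = ∏ j, ∏ i, lmv A u j i ^ v j i := by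
    rw [Finset.prod_comm]
    exact Finset.prod_congr rfl fun j _ => hJ j _
  have h3 : (∏ t, cdet A (J t)) * cdt D u z ^ M / ∏ j, ∏ i, lmv A u j i ^ v j i =
      ∏ t, mdet D (quo A u (J t)) z := by
    rw [div_eq_iff hden, ← h1, ← Finset.prod_mul_distrib]
    have h2 : ∀ t : Fin M, mdet D (quo A u (J t)) z * ∏ j, ∏ k, lmv A u j (J t j k) =
        cdt D u z * cdet A (J t) := fun t => mix_quo hD hl (J t) z
    rw [Finset.prod_congr rfl fun t _ => h2 t, Finset.prod_mul_distrib, Finset.prod_const,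
      Finset.card_univ, Fintype.card_fin, mul_comm]
  rw [h3]
  have h4 := Ge.prod (P := P) Finset.univ (fun t : Fin M => mdet D (quo A u (J t)) z)
    (fun _ => (ν : ℤ)) (fun t _ => by
      rw [mdet_log _ _ hz]
      have h5 : Ge P 0 (Matrix.of fun c c' => D c (Sum.elim (quo A u (J t)) z c') /
          Sum.elim (quo A u (J t)) z c').det :=
        ge_det' P _ 0 (fun _ _ => 0) (fun i l => hlog i _) fun _ => by simp
      simpa using hν.mul h5)
  simpa using h4

/-- **The orders of the forms of the arrangement.** -/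
theorem facO_ge {M : ℕ} (hL : Algebra.trdeg L K = e)
    (σ : (Σ j, Fin (r j)) ⊕ Fin s ≃ Fin e)
    (hA : LcArr (upF K' L) A w) (hl : ∀ j i, lmv A u j i ≠ 0) (hw0 : ∀ j i, 0 ≤ w j i)
    (hws : ∀ j, (r j + 1 : ℚ) ≤ ∑ i, w j i)
    {v : ∀ j, Fin (q j) → ℕ} {J : Fin M → ∀ j, Fin (r j + 1) → Fin (q j)} (hadm : Adm r q w M v)
    (hJ : ∀ j (f : Fin (q j) → K'), ∏ t, ∏ k, f (J t j k) = ∏ i, f i ^ v j i)
    {P : Place ℂ K} {G : Fin e → Derivation L K K}
    {G' : Fin e → Derivation (upF K' L) K' K'} (hG : ∀ i f, P.Reg f → P.Reg (G i f))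
    (hG' : ∀ i f, G' i (algebraMap K K' f) = algebraMap K K' (G i f))
    {Q : Place ℂ K'} {ε : ℕ} (hQ : Over Q P ε) {z : Fin s → K'} (hz0 : ∀ l, z l ≠ 0)
    (hz : ∀ l, 0 ≤ Q.ord (z l)) {t : ℕ} (ht : Ge Q t (∏ l, z l)) {x b : ℝ} (hx : 0 ≤ x)
    (hb : 0 ≤ b)
    (hH : (∀ f ∈ L, f ≠ 0 → P.ord f = 0) → ∀ (c' : Fin c → ℤ) (e : ∀ j, Fin (q j) → ℕ),
      (∀ j, MOrd Q (A j) (hcd u j) (c' j) (e j)) →
      ((ε : ℝ) * (1 - x) ≤ ∑ j, ((mx A j (e j) : ℝ) - ∑ i, (w j i : ℝ) * e j i) + b) ∨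
        (t = 0 ∧ b = 0 ∧ (∀ j i, e j i = 0) ∧ (ε : ℝ) * (1 - x) ≤ 1)) :
    GeR Q (M * (-(ε * x) + t - b)) ((∏ t, cdet A (J t)) *
      cdt (fun c => (G' (σ c)).restrictScalars ℂ) u z ^ M / ∏ j, ∏ i, lmv A u j i ^ v j i) := by
  classical
  have hkA : ∀ l j i k, ((G' (σ l)).restrictScalars ℂ) (A j i k) = 0 := fun l j i k =>
    der_alg (G' (σ l)) ((hA.1 j i).2 k)
  have hM0 : (0 : ℝ) ≤ M := Nat.cast_nonneg _
  have hε0 : (0 : ℝ) ≤ ε := Nat.cast_nonneg _
  by_cases htr : ∀ f ∈ L, f ≠ 0 → P.ord f = 0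
  · have hup : ∀ f ∈ upF K' L, f ≠ 0 → Q.ord f = 0 := by
      rintro f hf hf0
      obtain ⟨a, ha, rfl⟩ := mem_upF.1 hf
      have ha0 : a ≠ 0 := fun h => hf0 (by rw [h, map_zero])
      rw [hQ.2, htr a ha ha0, mul_zero]
    have hAge : ∀ j i k, Ge Q 0 (A j i k) := fun j i k => triv_ge hup ((hA.1 j i).2 k)
    have hC : Ge Q 0 (∏ t, cdet A (J t)) := by
      have := Ge.prod (P := Q) Finset.univ (fun t => cdet A (J t)) (fun _ => 0)
        (fun t _ => triv_ge hup (hA.alg_cdet (J t)))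
      simpa using this
    have ho : ∀ j, ∃ c' ε, MOrd Q (A j) (hcd u j) c' ε := fun j =>
      exists_mord (hAge j) ⟨0, by rw [hcd_zero]; exact one_ne_zero⟩ (hl j)
    choose c' e' ho using ho
    have hlo : ∀ j i, Q.ord (lmv A u j i) = c' j + e' j i := fun j i => (ho j).2.2 i
    have hbas : ∀ j, ∃ I : Fin (r j + 1) → Fin (q j),
        (Matrix.of fun k a => A j (I k) a).det ≠ 0 ∧ mx A j (e' j) = ∑ k, e' j (I k) := by
      intro j
      obtain ⟨I, hI, -⟩ := hA.pos_basis hw0 hws j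
      obtain ⟨I', hI', h2⟩ := Finset.exists_mem_eq_sup (Finset.univ.filter
        fun I : Fin (r j + 1) → Fin (q j) => (Matrix.of fun k a => A j (I k) a).det ≠ 0)
        ⟨I, Finset.mem_filter.2 ⟨Finset.mem_univ _, hI⟩⟩ fun I => ∑ k, e' j (I k)
      exact ⟨I', (Finset.mem_filter.1 hI').2, h2⟩
    choose I hI hIm using hbas
    have hd : ∀ j, (Matrix.of fun k a => A j (I j k) a).det ≠ 0 ∧
        Q.ord (Matrix.of fun k a => A j (I j k) a).det = 0 := fun j =>
      ⟨hI j, triv_ord0 hup (alg_det fun k a => (hA.1 _ _).2 _) (hI j)⟩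
    rcases hH htr c' e' ho with hH' | ⟨ht0, hb0, he, hH'⟩
    · have hmd := mix_detO hL hQ hG hG' σ (quo A u I) hz0 ht
      have h1 := mix_lc (D := fun c => (G' (σ c)).restrictScalars ℂ) (z := z) hadm.1 hC hd hl hkA
        (ν := ε - t) (by
          rw [neg_sub]
          exact hmd) ho
      rcases h1 with h1 | h1
      · exact Or.inl h1
      right
      have h3 : ((∑ j, ((M : ℤ) * ∑ k, (e' j (I j k) : ℤ) - ∑ i, (v j i : ℤ) * e' j i) -
          M * ((ε : ℤ) - t) : ℤ) : ℝ) ≤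
          (Q.ord ((∏ t, cdet A (J t)) * cdt (fun c => (G' (σ c)).restrictScalars ℂ) u z ^ M /
            ∏ j, ∏ i, lmv A u j i ^ v j i) : ℝ) := by exact_mod_cast h1
      refine le_trans ?_ h3
      push_cast
      have h4 : (M : ℝ) * ∑ j, ((mx A j (e' j) : ℝ) - ∑ i, (w j i : ℝ) * e' j i) ≤
          ∑ j, ((M : ℝ) * ∑ k, (e' j (I j k) : ℝ) - ∑ i, (v j i : ℝ) * e' j i) := by
        rw [Finset.mul_sum]
        refine Finset.sum_le_sum fun j _ => ?_
        rw [hIm j, mul_sub, Finset.mul_sum (f := fun i => (w j i : ℝ) * e' j i)]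
        push_cast
        refine sub_le_sub_left (Finset.sum_le_sum fun i _ => ?_) _
        have h5 : (v j i : ℝ) ≤ M * w j i := by exact_mod_cast hadm.2 j i
        have h6 : (0 : ℝ) ≤ e' j i := Nat.cast_nonneg _
        nlinarith
      have h5 := mul_le_mul_of_nonneg_left hH' hM0
      nlinarith
    · have hmd := mix_det hL hQ hG hG' σ (f := quo A u I) (z := z)
        fun l => (Q.reg_iff (hz0 l)).2 (hz l)
      have h1 := mix_lc (D := fun c => (G' (σ c)).restrictScalars ℂ) (z := z) hadm.1 hC hd hl hkA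
        (ν := ε - 1) (by
          have h2 := hmd.2 htr (fun l => by
            change Q.ord (lmv A u _ _ / lmv A u _ _) = 0
            rw [Q.ord_div (hl _ _) (hl _ _), hlo, hlo, he, he, sub_self])
          rw [neg_sub]
          exact h2) ho
      rcases h1 with h1 | h1
      · exact Or.inl h1
      right
      have h2 : ∑ j, ((M : ℤ) * ∑ k, (e' j (I j k) : ℤ) - ∑ i, (v j i : ℤ) * e' j i) = 0 :=
        Finset.sum_eq_zero fun j _ => by simp [he]
      rw [h2, zero_sub] at h1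
      have h3 : ((-(M * ((ε : ℤ) - 1)) : ℤ) : ℝ) ≤
          (Q.ord ((∏ t, cdet A (J t)) * cdt (fun c => (G' (σ c)).restrictScalars ℂ) u z ^ M /
            ∏ j, ∏ i, lmv A u j i ^ v j i) : ℝ) := by exact_mod_cast h1
      refine le_trans ?_ h3
      push_cast
      rw [ht0, hb0]
      have h5 := mul_le_mul_of_nonneg_left hH' hM0
      push_cast
      nlinarith
  · push Not at htr
    obtain ⟨a, haL, ha0, hao⟩ := htr
    have h1 : ∀ l, DerLog Q ((G' l).restrictScalars ℂ) := by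
      intro l
      have h2 : DerLog P ((G l).restrictScalars ℂ) := by
        intro f
        by_cases hf : f = 0
        · left
          rw [hf, div_zero]
        · exact log_of_const (a := a) (fun f hf => hG l f hf)
            ((G l).map_algebraMap (⟨a, haL⟩ : L)) hao hf
      exact lift_log hQ h2 (fun f => hG' l f)
    have h2 := mix_logO (D := fun c => (G' (σ c)).restrictScalars ℂ) (P := Q) hJ hl hkA hz0 ht
      fun l f => (reg_iff_ge _ _).1 (h1 (σ l) f)
    rcases h2 with h2 | h2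
    · exact Or.inl h2
    · right
      have h3 : (((M : ℤ) * t : ℤ) : ℝ) ≤ (Q.ord ((∏ t, cdet A (J t)) *
          cdt (fun c => (G' (σ c)).restrictScalars ℂ) u z ^ M /
            ∏ j, ∏ i, lmv A u j i ^ v j i) : ℝ) := by exact_mod_cast h2
      refine le_trans ?_ h3
      push_cast
      have h4 := mul_nonneg hM0 (add_nonneg (mul_nonneg hε0 hx) hb)
      nlinarith

end Pool.Agent.X140.FL
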