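import Pool.Agent.X140.FL.MixDet

/-!
Algebraic independence over the compositum of two subfields.
-/

set_option autoImplicit false
set_option linter.overlappingInstances false
set_option linter.unusedSectionVars false

open Pool.Agent.X180.Iso Pool.Agent.X140.EF

namespace Pool.Agent.X140.FL

variable {k K : Type} [Field k] [Field K] [Algebra k K]

/-- independence over the compositum -/
theorem ind_over {U M : IntermediateField k K} {s : ℕ} {y : Fin s → M}
    (hy : IsTranscendenceBasis k y) {ι : Type} {u : ι → K}
    (h : AlgebraicIndependent U (Sum.elim u (fun j => (y j : K)))) :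
    AlgebraicIndependent (IntermediateField.adjoin k ((U : Set K) ∪ (M : Set K))) u := by
  obtain ⟨S, hS⟩ : ∃ S : Set K, S = Set.range fun j => (y j : K) := ⟨_, rfl⟩
  have h2 : AlgebraicIndependent (Algebra.adjoin U S) u := by
    rw [hS]
    exact (AlgebraicIndependent.sumElim_iff.1 h).2
  obtain ⟨T, hT⟩ : ∃ T : IntermediateField U K, T = IntermediateField.adjoin U S := ⟨_, rfl⟩
  have hM : ∀ z ∈ M, IsAlgebraic T z := by
    intro z hz
    have h3 : IsAlgebraic (Algebra.adjoin k (Set.range y)) (⟨z, hz⟩ : M) :=
      hy.isAlgebraic.isAlgebraic _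
    have h4 : ∀ w ∈ Algebra.adjoin k (Set.range y), (w : K) ∈ T := by
      intro w hw
      induction hw using Algebra.adjoin_induction with
      | mem w hw =>
        obtain ⟨j, rfl⟩ := hw
        rw [hT]
        refine IntermediateField.subset_adjoin _ _ ?_
        rw [hS]
        exact ⟨j, rfl⟩
      | algebraMap c =>
        have h5 : ((algebraMap k M c : M) : K) = algebraMap U K (algebraMap k U c) := rfl
        rw [h5]
        exact T.algebraMap_mem _
      | add a b _ _ ha hb => exact add_mem ha hb
      | mul a b _ _ ha hb => exact mul_mem ha hb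
    let i : Algebra.adjoin k (Set.range y) →+* T :=
      ((M.val : M →ₐ[k] K).toRingHom.comp
        (Algebra.adjoin k (Set.range y)).val.toRingHom).codRestrict T.toSubfield fun w => h4 w w.2
    have hi : Function.Injective i := by
      intro a b hab
      have h5 : (((a : M) : K)) = ((b : M) : K) := congrArg (fun w : T => (w : K)) hab
      exact Subtype.ext (Subtype.ext h5)
    exact h3.ringHom_of_comp_eq i M.val.toRingHom hi rfl
  obtain ⟨B, hB⟩ : ∃ B : IntermediateField k K, ∀ z, z ∈ B ↔ IsAlgebraic T z :=
    ⟨((algebraicClosure T K).restrictScalars U).restrictScalars k, fun z => by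
      rw [IntermediateField.mem_restrictScalars, IntermediateField.mem_restrictScalars,
        mem_algebraicClosure_iff]⟩
  have hU1 : IntermediateField.adjoin k ((U : Set K) ∪ (M : Set K)) ≤ B := by
    rw [IntermediateField.adjoin_le_iff]
    rintro z (hz | hz)
    · refine (hB z).2 ?_
      exact isAlgebraic_algebraMap (⟨z, T.algebraMap_mem (⟨z, hz⟩ : U)⟩ : T)
    · exact (hB z).2 (hM z hz)
  have h5 : ∀ z ∈ IntermediateField.adjoin k ((U : Set K) ∪ (M : Set K)),
      IsAlgebraic (Algebra.adjoin U S) z := by
    intro z hz
    have h6 := (hB z).1 (hU1 hz)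
    rw [hT] at h6
    exact IntermediateField.isAlgebraic_adjoin_iff.1 h6
  have h6 := h2.subalgebraAlgebraicClosure
  let f : IntermediateField.adjoin k ((U : Set K) ∪ (M : Set K)) →+*
      Subalgebra.algebraicClosure (Algebra.adjoin U S) K :=
    (IntermediateField.adjoin k ((U : Set K) ∪ (M : Set K))).val.toRingHom.codRestrict _
      fun z => h5 z z.2
  exact h6.of_ringHom_of_comp_eq f (RingHom.id K) (fun a b hab => Subtype.ext
    (congrArg (fun w : Subalgebra.algebraicClosure (Algebra.adjoin U S) K => (w : K)) hab)) rfl

end Pool.Agent.X140.FL
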