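import Pool.Agent.X140.FL.FacO
import Pool.Agent.X140.FL.LcfLow
import Pool.Agent.X180.OC.Part
import Pool.Agent.X180.OC.Defs
import Pool.Agent.X180.OD.Defs
import Pool.Agent.X140.FL.Defs

/-!
Forms along the fibres of a pair whose fibres, after a base change and a correspondence, dominate
the product of an orbifold over the constants and a log canonical arrangement of hyperplanes.
-/

set_option autoImplicit false
set_option linter.overlappingInstances false
set_option linter.unusedSectionVars false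

open FF Pool.Agent.W602.GT Pool.Agent.W603.LV Pool.Agent.TH585.SV Pool.Agent.W619.PQ
open Pool.Agent.W619.Y Pool.Agent.Y172 Pool.Agent.Y191 Pool.Agent.X180.Iso Pool.Agent.X140.EF
open Pool.Agent.X180.Tow Pool.Agent.X180.OC

namespace Pool.Agent.X140.FL

variable {K K' : Type} [Field K] [Field K'] [Algebra ℂ K] [Algebra ℂ K'] [Algebra K K']
  [IsScalarTower ℂ K K'] [FiniteDimensional K K'] {c s e : ℕ} {r q : Fin c → ℕ}
variable {A : ∀ j, Fin (q j) → Fin (r j + 1) → K'} {u : (Σ j, Fin (r j)) → K'}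
variable {L : IntermediateField ℂ K} {w : ∀ j, Fin (q j) → ℚ}

/-- **The forms along the fibres.** -/
theorem lco_low {N lam0 lam : ℕ} (hN : Algebra.trdeg ℂ K = N)
    (hL : Algebra.trdeg L K = ((∑ j, r j) + s : ℕ))
    (M : IntermediateField ℂ K') [Algebra.EssFiniteType ℂ M] (hM : Algebra.trdeg ℂ M = s)
    (hA : LcArr (upF K' L) A w) (hw0 : ∀ j i, 0 ≤ w j i)
    (hws : ∀ j, (r j + 1 : ℚ) ≤ ∑ i, w j i)
    (hdom : ∀ z : K', IsAlgebraic (IntermediateField.adjoin ℂ ((upF K' L : Set K') ∪
      ((M : Set K') ∪ Set.range u))) z)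
    {κ : Fin lam → Σ j, Fin (r j)} (hκ : Function.Injective κ)
    (hκs : ∀ i, (r (κ i).1 + 1 : ℚ) < ∑ i', w (κ i).1 i')
    {a : Place ℂ M → ℝ} {X : Set (Place ℂ K)}
    (ha : ∀ p ∈ Pool.Agent.X180.OD.images X K' M, 0 ≤ a p)
    (hk : Pool.Agent.X180.OD.OrbifoldKodGe M s (Pool.Agent.X180.OD.images X K' M) a lam0)
    {δ : Place ℂ K → ℝ} (hδ : ∀ P ∈ X, 0 ≤ δ P) (hH : ProductMultiplicities L M a A u w X δ) :
    HasForms N X δ L ((∑ j, r j) + s) (lam0 + lam) := by
  classical
  have hcU : CharZero (upF K' L) :=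
    charZero_of_injective_algebraMap (algebraMap ℂ (upF K' L)).injective
  have hN' : Algebra.trdeg ℂ K' = N := by
    have h1 : Algebra.trdeg K K' = 0 := trdeg_eq_zero_iff.2 inferInstance
    rw [← hN, ← _root_.trdeg_add_eq ℂ K (A := K'), h1, add_zero]
  have hU : Algebra.trdeg (upF K' L) K' = ((∑ j, r j) + s : ℕ) := trdeg_upF hL
  obtain ⟨m, hm, ω, hω, D, hD0, hDi⟩ := hk
  obtain ⟨y, E, hy, hE⟩ := exists_crd (k := ℂ) (K := M) hM
  -- the coordinates in one line
  obtain ⟨φ, hφ⟩ : ∃ φ : (Σ j, Fin (r j)) ≃ Fin (∑ j, r j), φ = finSigmaFinEquiv := ⟨_, rfl⟩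
  obtain ⟨σ, hσ⟩ : ∃ σ : (Σ j, Fin (r j)) ⊕ Fin s ≃ Fin ((∑ j, r j) + s),
    σ = (Equiv.sumCongr φ (Equiv.refl _)).trans finSumFinEquiv := ⟨_, rfl⟩
  have hσl : ∀ c, σ (Sum.inl c) = Fin.castAdd s (φ c) := by
    intro c
    rw [hσ]
    simp
  have hσr : ∀ l, σ (Sum.inr l) = Fin.natAdd (∑ j, r j) l := by
    intro l
    rw [hσ]
    simp
  have hdom1 : ∀ z : K', IsAlgebraic (IntermediateField.adjoin ℂ ((upF K' L : Set K') ∪
      ((M : Set K') ∪ Set.range (fun i => u (φ.symm i))))) z := by
    have h1 : Set.range (fun i => u (φ.symm i)) = Set.range u := φ.symm.surjective.range_comp u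
    rw [h1]
    exact hdom
  have hyU : IsTranscendenceBasis (upF K' L)
      (Fin.append (fun i => u (φ.symm i)) (fun j => ((y j : M) : K'))) :=
    basis_mix (upF K' L) M hU hy _ hdom1
  have hyS : IsTranscendenceBasis (upF K' L) (Sum.elim u (fun j => ((y j : M) : K'))) := by
    have h1 := hyU.comp_equiv σ
    convert h1 using 1
    funext x
    rw [Function.comp_apply]
    rcases x with x | x
    · rw [hσl, Fin.append_left, Sum.elim_inl, Equiv.symm_apply_apply]
    · rw [hσr, Fin.append_right, Sum.elim_inr]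
  choose E' hE1 using fun i => exists_dual (k := upF K' L) _ hyU i
  have hEx : ∀ i c, E' i (u c) = if i = Fin.castAdd s (φ c) then 1 else 0 := by
    intro i c
    have h1 := hE1 i (Fin.castAdd s (φ c))
    rw [Fin.append_left, φ.symm_apply_apply] at h1
    rw [h1]
    by_cases h : i = Fin.castAdd s (φ c)
    · rw [if_pos h, if_pos h.symm]
    · rw [if_neg h, if_neg (Ne.symm h)]
  have hEy : ∀ i l, E' i ((y l : M) : K') = if i = Fin.natAdd (∑ j, r j) l then 1 else 0 := by
    intro i l
    have h1 := hE1 i (Fin.natAdd (∑ j, r j) l)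
    rw [Fin.append_right] at h1
    rw [h1]
    by_cases h : i = Fin.natAdd (∑ j, r j) l
    · rw [if_pos h, if_pos h.symm]
    · rw [if_neg h, if_neg (Ne.symm h)]
  -- the forms of the variety over the constants
  have hval : ∀ b, ω b D = (Matrix.of fun i j => D i (y j)).det ^ m * ω b E := fun b =>
    pluri_coord hy hE (hω b).1 D
  have hd0 : (Matrix.of fun i j => D i (y j)).det ^ m ≠ 0 := by
    intro h0
    apply hD0
    rw [hval, h0, zero_mul]
  have hW0 : ω 0 E ≠ 0 := by
    intro h0
    apply hD0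
    rw [hval, h0, mul_zero]
  have hind : AlgebraicIndependent ℂ (fun i : Fin lam0 => ω i.succ E / ω 0 E) := by
    have e1 : (fun i : Fin lam0 => ω i.succ E / ω 0 E) = fun i : Fin lam0 => ω i.succ D / ω 0 D := by
      funext i
      rw [hval i.succ, hval 0, mul_div_mul_left _ _ hd0]
    rw [e1]
    exact hDi
  -- the forms of the arrangement
  obtain ⟨U1, hU1⟩ : ∃ U1, U1 = IntermediateField.adjoin ℂ ((upF K' L : Set K') ∪ (M : Set K')) :=
    ⟨_, rfl⟩
  have hUU1 : upF K' L ≤ U1 := by
    rw [hU1]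
    exact fun z hz => IntermediateField.subset_adjoin _ _ (Or.inl hz)
  have hMU1 : M ≤ U1 := by
    rw [hU1]
    exact fun z hz => IntermediateField.subset_adjoin _ _ (Or.inr hz)
  have hbU1 : IsTranscendenceBasis U1 u := by
    rw [hU1]
    exact basis_over hy hyS.1 hdom
  obtain ⟨M1, hM1, hl, v, J, hadm, hJ, G1, hG1, hind1⟩ :=
    lc_forms (lcArr_up hA hUU1) φ hbU1 hw0 hws hκ hκs
  obtain ⟨cf, hcf⟩ : ∃ cf : Fin (lam + 1) → K', ∀ b, cf b = (∏ t, cdet A (J b t)) /
    ∏ j, ∏ i, lmv A u j i ^ v b j i := ⟨_, fun _ => rfl⟩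
  have hmv : ∀ b, movf φ A u M1 (v b) (∏ t, cdet A (J b t)) (fun i => (G1 i).restrictScalars ℂ) =
      cf b * (Matrix.of fun i l => ((G1 i).restrictScalars ℂ) (u (φ.symm l))).det ^ M1 := by
    intro b
    rw [hcf]
    unfold movf
    ring
  rw [hmv] at hG1
  simp only [hmv] at hind1
  have hcf0 : cf 0 ≠ 0 := left_ne_zero_of_mul hG1
  have hdt0 := right_ne_zero_of_mul hG1
  have hind2 : AlgebraicIndependent U1 (fun i : Fin lam => cf i.succ / cf 0) := by
    convert hind1 using 1
    funext i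
    rw [mul_div_mul_right _ _ hdt0]
  -- the degrees
  obtain ⟨B1, rfl⟩ : ∃ B1, M1 = B1 + 1 := ⟨M1 - 1, by omega⟩
  obtain ⟨B2, rfl⟩ : ∃ B2, m = B2 + 1 := ⟨m - 1, by omega⟩
  -- the indices
  obtain ⟨bi, hbi⟩ : ∃ bi : Fin (lam0 + lam + 1) → Fin (lam0 + 1),
    bi = Fin.cons 0 (Fin.append (fun i => i.succ) (fun _ => 0)) := ⟨_, rfl⟩
  obtain ⟨bj, hbj⟩ : ∃ bj : Fin (lam0 + lam + 1) → Fin (lam + 1),
    bj = Fin.cons 0 (Fin.append (fun _ => 0) (fun i => i.succ)) := ⟨_, rfl⟩
  have hη : ∀ b, IsPluri ((B1 + 1) * (B2 + 1))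
      (fun D : Fin s → Derivation ℂ M M => ω (bi b) D * ω 0 D ^ B1) := by
    intro b A' D'
    change ω (bi b) _ * ω 0 _ ^ B1 = _
    rw [(hω (bi b)).1 A' D', (hω 0).1 A' D']
    ring
  refine push_gen (M := (B1 + 1) * (B2 + 1)) (Nat.mul_pos hM1 hm) hL
    (θ' := fun b G => cf (bj b) * cf 0 ^ B2 *
      cdt (fun c => G (σ c)) u (fun l => ((y l : M) : K')) ^ ((B1 + 1) * (B2 + 1)) *
        (((ω (bi b) E * ω 0 E ^ B1 : M)) : K')) ?_ ?_ ⟨E', ?_, ?_⟩
  · intro b A' D'
    have h1 := cdt_sum σ u (fun l => ((y l : M) : K')) A' D'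
    change cf (bj b) * cf 0 ^ B2 * cdt (fun c => ∑ l, A' (σ c) l • D' l) u _ ^ _ * _ = _
    rw [h1, mul_pow]
    ring
  · intro P hP hPd G G' hG hG' Q ε hQ b
    change GeR Q (-(((B1 + 1) * (B2 + 1) : ℕ) * (ε * δ P))) _
    have hx0 : 0 ≤ δ P := hδ P hP
    -- reduction to one estimate
    have key : ∀ (z : Fin s → M) (Ez : Fin s → Derivation ℂ M M), IsTranscendenceBasis ℂ z →
        (∀ i j, Ez i (z j) = if i = j then 1 else 0) →
        ∀ (t : ℕ) (b' ρ : ℝ), Ge Q t (∏ l, ((z l : M) : K')) → (∀ l, 0 ≤ Q.ord ((z l : M) : K')) →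
        0 ≤ b' → ρ = t - b' →
        ((∀ f ∈ L, f ≠ 0 → P.ord f = 0) → ∀ (c' : Fin c → ℤ) (e : ∀ j, Fin (q j) → ℕ),
          (∀ j, MOrd Q (A j) (hcd u j) (c' j) (e j)) →
          ((ε : ℝ) * (1 - δ P) ≤ ∑ j, ((mx A j (e j) : ℝ) - ∑ i, (w j i : ℝ) * e j i) + b') ∨
            (t = 0 ∧ b' = 0 ∧ (∀ j i, e j i = 0) ∧ (ε : ℝ) * (1 - δ P) ≤ 1)) →
        (∀ b, GeR Q (-((B2 + 1 : ℕ) * ρ)) ((ω b Ez : M) : K')) →
        GeR Q (-(((B1 + 1) * (B2 + 1) : ℕ) * (ε * δ P))) (cf (bj b) * cf 0 ^ B2 *
          cdt (fun c => G' (σ c)) u (fun l => ((y l : M) : K')) ^ ((B1 + 1) * (B2 + 1)) *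
            (((ω (bi b) E * ω 0 E ^ B1 : M)) : K')) := by
      intro z Ez hz hEz t b' ρ ht hz1 hb' hρ hHz hωz
      have hz0 : ∀ j, ((z j : M) : K') ≠ 0 := fun j h0 => hz.1.ne_zero j (Subtype.ext h0)
      have h1 : cdt (fun c => G' (σ c)) u (fun l => ((y l : M) : K')) =
          cdt (fun c => (G' (σ c)).restrictScalars ℂ) u (fun l => ((z l : M) : K')) *
            ((Matrix.of fun l b => algebraMap M K' (Ez b (y l)))).det := by
        refine cdt_change (D := fun c => (G' (σ c)).restrictScalars ℂ) u fun c l => ?_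
        have h2 := Pool.Agent.W73.PG.PULL.chain (L := K') z hz Ez hEz
          ((G' (σ c)).restrictScalars ℂ) (y l)
        refine h2.trans (Finset.sum_congr rfl fun b _ => ?_)
        rw [mul_comm]
        rfl
      have h2 : ((Matrix.of fun l b => algebraMap M K' (Ez b (y l)))).det =
          algebraMap M K' (Matrix.of fun i j => Ez i (y j)).det := by
        rw [RingHom.map_det, ← Matrix.det_transpose]
        rfl
      have h3 : (((ω (bi b) E * ω 0 E ^ B1 : M)) : K') *
          ((Matrix.of fun l b => algebraMap M K' (Ez b (y l)))).det ^ ((B1 + 1) * (B2 + 1)) =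
          ((ω (bi b) Ez * ω 0 Ez ^ B1 : M) : K') := by
        have h4 := pluri_coord hy hE (hη b) Ez
        beta_reduce at h4
        rw [h4, h2]
        generalize (Matrix.of fun i j => Ez i (y j)).det = d
        have h5 : algebraMap M K' d = ((d : M) : K') := rfl
        rw [h5]
        push_cast
        ring
      have hfac : ∀ b, GeR Q ((B1 + 1 : ℕ) * (-(ε * δ P) + t - b'))
          (cf b * cdt (fun c => (G' (σ c)).restrictScalars ℂ) u
            (fun l => ((z l : M) : K')) ^ (B1 + 1)) := by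
        intro b
        have h5 := facO_ge hL σ hA hl hw0 hws (hadm b) (hJ b) hG hG' hQ hz0 hz1 ht hx0 hb' hHz
        have h6 : cf b * cdt (fun c => (G' (σ c)).restrictScalars ℂ) u
            (fun l => ((z l : M) : K')) ^ (B1 + 1) =
            (∏ t, cdet A (J b t)) * cdt (fun c => (G' (σ c)).restrictScalars ℂ) u
              (fun l => ((z l : M) : K')) ^ (B1 + 1) / ∏ j, ∏ i, lmv A u j i ^ v b j i := by
          rw [hcf]
          ring
        rw [h6]
        exact h5
      have h4 : GeR Q (-(((B1 + 1) * (B2 + 1) : ℕ) * ρ))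
          (((ω (bi b) Ez * ω 0 Ez ^ B1 : M) : K')) := by
        have h5 := (hωz (bi b)).mul ((hωz 0).pow B1)
        push_cast
        refine h5.mono (le_of_eq ?_)
        push_cast
        ring
      have h5 := ((hfac (bj b)).mul ((hfac 0).pow B2)).mul h4
      have h6 : cf (bj b) * cf 0 ^ B2 *
          cdt (fun c => G' (σ c)) u (fun l => ((y l : M) : K')) ^ ((B1 + 1) * (B2 + 1)) *
            (((ω (bi b) E * ω 0 E ^ B1 : M)) : K') =
          cf (bj b) * cdt (fun c => (G' (σ c)).restrictScalars ℂ) u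
            (fun l => ((z l : M) : K')) ^ (B1 + 1) *
            (cf 0 * cdt (fun c => (G' (σ c)).restrictScalars ℂ) u
              (fun l => ((z l : M) : K')) ^ (B1 + 1)) ^ B2 *
            (((ω (bi b) Ez * ω 0 Ez ^ B1 : M) : K')) := by
        rw [← h3, h1]
        generalize cdt (fun c => (G' (σ c)).restrictScalars ℂ) u (fun l => ((z l : M) : K')) = d
        ring
      rw [h6]
      refine h5.mono (le_of_eq ?_)
      rw [hρ]
      push_cast
      ring
    by_cases htM : ∀ f : M, Q.ord (f : K') = 0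
    · have hprod : Ge Q 0 (∏ j, ((y j : M) : K')) := by
        have h1 := Ge.prod (P := Q) Finset.univ (fun j => ((y j : M) : K')) (fun _ => 0)
          fun j _ => Or.inr (htM (y j)).ge
        simpa using h1
      refine key y E hy hE 0 0 0 (by simpa using hprod) (fun l => (htM (y l)).ge) le_rfl
        (by simp) (fun htr c' e' ho => ?_) fun b => ?_
      · have h1 := (hH P hP htr Q ε hQ c' e' ho).1 htM
        by_cases he : ∃ j i, e' j i ≠ 0
        · rw [if_pos he] at h1
          left
          rw [add_zero]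
          exact h1
        · rw [if_neg he] at h1
          push Not at he
          exact Or.inr ⟨rfl, rfl, he, h1⟩
      · right
        rw [htM]
        simp
    · push Not at htM
      obtain ⟨ν, p, hp⟩ := exists_over (K := M) Q htM
      have hdiv : IsDivisorial p s := pDIVR ℂ M K' s N p Q ν hM hN' hp (divisorial_up hQ hPd)
      obtain ⟨z, Ez, i0, hz, hEz, hz1, hzr, hpres⟩ := pFRAME ℂ M s hM
        (fun y hy => fin_over y hy) p hdiv
      have hzQ : ∀ j, 0 ≤ Q.ord ((z j : M) : K') := by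
        intro j
        have h1 : Q.ord ((z j : M) : K') = ν * p.ord (z j) := hp.2 (z j)
        rw [h1]
        rcases hzr j with h2 | h2
        · rw [h2, p.ord_zero, mul_zero]
        · positivity
      have hzi : Q.ord ((z i0 : M) : K') = ν := by
        have h1 : Q.ord ((z i0 : M) : K') = ν * p.ord (z i0) := hp.2 (z i0)
        rw [h1, hz1, mul_one]
      refine key z Ez hz hEz ν (ν * a p) (ν * (1 - a p)) (ge_prod_ord hzQ hzi) hzQ
        (mul_nonneg (Nat.cast_nonneg _) (ha p ⟨P, hP, Q, ε, ν, hQ, hp⟩)) (by ring)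
        (fun htr c' e' ho => Or.inl ((hH P hP htr Q ε hQ c' e' ho).2 p ν hp)) fun b => ?_
      rcases (hω b).2 p ⟨P, hP, Q, ε, ν, hQ, hp⟩ hdiv Ez hpres with h1 | h1
      · left
        rw [h1]
        rfl
      · right
        have h2 : Q.ord ((ω b Ez : M) : K') = ν * p.ord (ω b Ez) := hp.2 (ω b Ez)
        rw [h2]
        push_cast at h1 ⊢
        have h3 := mul_le_mul_of_nonneg_left h1 (Nat.cast_nonneg (α := ℝ) ν)
        linarith
  · -- the first form
    have hdet : cdt (fun c => E' (σ c)) u (fun l => ((y l : M) : K')) = 1 := by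
      unfold cdt
      have h1 : (Matrix.of fun c c' => (E' (σ c)) (Sum.elim u (fun l => ((y l : M) : K')) c')) =
          1 := by
        ext c c'
        rw [Matrix.one_apply, Matrix.of_apply]
        rcases c' with c' | l
        · rw [Sum.elim_inl, hEx, ← hσl]
          by_cases h : c = Sum.inl c'
          · rw [if_pos h, h, if_pos rfl]
          · rw [if_neg h, if_neg fun h1 => h (σ.injective h1)]
        · rw [Sum.elim_inr, hEy, ← hσr]
          by_cases h : c = Sum.inr l
          · rw [if_pos h, h, if_pos rfl]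
          · rw [if_neg h, if_neg fun h1 => h (σ.injective h1)]
      rw [h1, Matrix.det_one]
    have h0 : bj 0 = 0 := by rw [hbj, Fin.cons_zero]
    have h1 : bi 0 = 0 := by rw [hbi, Fin.cons_zero]
    beta_reduce
    rw [h0, h1, hdet, one_pow, mul_one]
    refine mul_ne_zero (mul_ne_zero hcf0 (pow_ne_zero _ hcf0)) ?_
    intro h0
    have h1 : (ω 0 E * ω 0 E ^ B1 : M) = 0 := Subtype.ext h0
    exact mul_ne_zero hW0 (pow_ne_zero _ hW0) h1
  · have hdet : cdt (fun c => E' (σ c)) u (fun l => ((y l : M) : K')) = 1 := by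
      unfold cdt
      have h1 : (Matrix.of fun c c' => (E' (σ c)) (Sum.elim u (fun l => ((y l : M) : K')) c')) =
          1 := by
        ext c c'
        rw [Matrix.one_apply, Matrix.of_apply]
        rcases c' with c' | l
        · rw [Sum.elim_inl, hEx, ← hσl]
          by_cases h : c = Sum.inl c'
          · rw [if_pos h, h, if_pos rfl]
          · rw [if_neg h, if_neg fun h1 => h (σ.injective h1)]
        · rw [Sum.elim_inr, hEy, ← hσr]
          by_cases h : c = Sum.inr l
          · rw [if_pos h, h, if_pos rfl]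
          · rw [if_neg h, if_neg fun h1 => h (σ.injective h1)]
      rw [h1, Matrix.det_one]
    have hb0 : bj 0 = 0 := by rw [hbj, Fin.cons_zero]
    have hb1 : bi 0 = 0 := by rw [hbi, Fin.cons_zero]
    have h3 : ((ω 0 E : M) : K') ≠ 0 := fun h0 => hW0 (Subtype.ext h0)
    have hr : (fun i : Fin (lam0 + lam) => cf (bj i.succ) * cf 0 ^ B2 *
        cdt (fun c => E' (σ c)) u (fun l => ((y l : M) : K')) ^ ((B1 + 1) * (B2 + 1)) *
        (((ω (bi i.succ) E * ω 0 E ^ B1 : M)) : K') / (cf (bj 0) * cf 0 ^ B2 *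
        cdt (fun c => E' (σ c)) u (fun l => ((y l : M) : K')) ^ ((B1 + 1) * (B2 + 1)) *
        (((ω (bi 0) E * ω 0 E ^ B1 : M)) : K'))) =
        Fin.append (fun j : Fin lam0 => (((ω j.succ E / ω 0 E : M)) : K'))
          (fun j : Fin lam => cf j.succ / cf 0) := by
      funext i
      rw [hb0, hb1, hdet, one_pow, mul_one, mul_one]
      refine Fin.addCases (fun b => ?_) (fun b => ?_) i
      · have h4 : bj (Fin.castAdd lam b).succ = 0 := by
          rw [hbj, Fin.cons_succ, Fin.append_left]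
        have h5 : bi (Fin.castAdd lam b).succ = b.succ := by
          rw [hbi, Fin.cons_succ, Fin.append_left]
        rw [h4, h5, Fin.append_left]
        push_cast
        field_simp
      · have h4 : bj (Fin.natAdd lam0 b).succ = b.succ := by
          rw [hbj, Fin.cons_succ, Fin.append_right]
        have h5 : bi (Fin.natAdd lam0 b).succ = 0 := by
          rw [hbi, Fin.cons_succ, Fin.append_right]
        rw [h4, h5, Fin.append_right]
        push_cast
        field_simp
    rw [hr]
    -- independence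
    have h6 : AlgebraicIndependent (upF K' L) (fun j : Fin lam0 =>
        (((ω j.succ E / ω 0 E : M)) : K')) := ind_mix (upF K' L) M hU hM hind _ hdom1
    have h7 : AlgebraicIndependent (Algebra.adjoin (upF K' L)
        (Set.range (fun j : Fin lam0 => (((ω j.succ E / ω 0 E : M)) : K'))))
        (fun j : Fin lam => cf j.succ / cf 0) := by
      have hle : ∀ z ∈ Algebra.adjoin (upF K' L)
          (Set.range (fun j : Fin lam0 => (((ω j.succ E / ω 0 E : M)) : K'))), z ∈ U1 := by
        intro z hz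
        induction hz using Algebra.adjoin_induction with
        | mem w hw =>
          obtain ⟨j, rfl⟩ := hw
          exact hMU1 (ω j.succ E / ω 0 E : M).2
        | algebraMap c => exact hUU1 c.2
        | add a b _ _ ha hb => exact add_mem ha hb
        | mul a b _ _ ha hb => exact mul_mem ha hb
      let i : Algebra.adjoin (upF K' L)
          (Set.range (fun j : Fin lam0 => (((ω j.succ E / ω 0 E : M)) : K'))) →+* U1 :=
        (Algebra.adjoin (upF K' L)
          (Set.range (fun j : Fin lam0 => (((ω j.succ E / ω 0 E : M)) : K')))).val.toRingHom.codRestrict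
            U1.toSubfield fun w => hle w w.2
      exact hind2.of_ringHom_of_comp_eq i (RingHom.id K') (fun a b hab => Subtype.ext
        (congrArg (fun w : U1 => (w : K')) hab)) rfl
    have h8 := AlgebraicIndependent.sumElim_iff.2 ⟨h6, h7⟩
    have h9 := h8.comp (Sum.swap ∘ finSumFinEquiv.symm)
      ((Equiv.sumComm _ _).injective.comp finSumFinEquiv.symm.injective)
    convert h9 using 1
    funext i
    rw [Function.comp_apply, Function.comp_apply]
    refine Fin.addCases (fun b => ?_) (fun b => ?_) i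
    · rw [finSumFinEquiv_symm_apply_castAdd, Fin.append_left]
      rfl
    · rw [finSumFinEquiv_symm_apply_natAdd, Fin.append_right]
      rfl

end Pool.Agent.X140.FL
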