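import Pool.Agent.Y191.LcLow
import Pool.Agent.X140.AB.Main

/-!
Determinants of the logarithmic derivatives of linear forms and of the derivatives of regular
functions.
-/

set_option autoImplicit false
set_option linter.overlappingInstances false
set_option linter.unusedSectionVars false

open FF Pool.Agent.W602.GT Pool.Agent.W603.LV Pool.Agent.TH585.SV Pool.Agent.Y172 Pool.Agent.Y191

namespace Pool.Agent.X140.FL

/-- a regular function plus a constant is a unit -/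
theorem exists_shift {K : Type} [Field K] [Algebra ℂ K] (Q : Place ℂ K) {z : K} (hz : Q.Reg z) :
    ∃ κ : ℂ, z + algebraMap ℂ K κ ≠ 0 ∧ Q.ord (z + algebraMap ℂ K κ) = 0 := by
  by_cases h : z ≠ 0 ∧ Q.ord z = 0
  · exact ⟨0, by rw [map_zero, add_zero]; exact h.1, by rw [map_zero, add_zero]; exact h.2⟩
  · have h1 : Ge Q 1 z := by
      by_cases h0 : z = 0
      · exact Or.inl h0
      · right
        have h2 : ¬ Q.ord z = 0 := fun h3 => h ⟨h0, h3⟩
        have h3 := (Q.reg_iff h0).1 hz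
        omega
    have hone : Ge Q 0 (1 : K) := Or.inr Q.ord_one.ge
    have h2 : Ge Q 0 (z + 1) := (h1.mono (by norm_num)).add hone
    have h3 : ¬ Ge Q 1 (z + 1) := by
      intro h4
      have h5 : Ge Q 1 ((z + 1) - z) := h4.sub h1
      rw [add_sub_cancel_left] at h5
      rcases h5 with h5 | h5
      · exact one_ne_zero h5
      · rw [Q.ord_one] at h5
        omega
    refine ⟨1, ?_, ?_⟩
    · rw [map_one]
      exact fun h4 => h3 (Or.inl h4)
    · rw [map_one]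
      have h4 : z + 1 ≠ 0 := fun h4 => h3 (Or.inl h4)
      have h5 := h2.resolve_left h4
      have h6 : ¬ 1 ≤ Q.ord (z + 1) := fun h7 => h3 (Or.inr h7)
      omega

section lift

variable {K K' : Type} [Field K] [Field K'] [Algebra ℂ K] [Algebra ℂ K'] [Algebra K K']
  [IsScalarTower ℂ K K'] {L : IntermediateField ℂ K} [FiniteDimensional K K'] {c s e : ℕ}
  {r : Fin c → ℕ}

/-- the determinant -/
noncomputable def mdet {R : Type} [CommSemiring R] [Algebra R K']
    (D : (Σ j, Fin (r j)) ⊕ Fin s → Derivation R K' K') (f : (Σ j, Fin (r j)) → K')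
    (z : Fin s → K') : K' :=
  (Matrix.of fun c c' => Sum.elim (fun c' : Σ j, Fin (r j) => D c (f c') / f c')
    (fun l => D c (z l)) c').det

/-- **The determinant of the logarithmic derivatives and of derivatives.** -/
theorem mix_det (hL : Algebra.trdeg L K = e) {P : Place ℂ K} {Q : Place ℂ K'} {ε : ℕ}
    (hQ : Over Q P ε) {G : Fin e → Derivation L K K} (hG : ∀ i f, P.Reg f → P.Reg (G i f))
    {G' : Fin e → Derivation (upF K' L) K' K'}
    (hG' : ∀ i f, G' i (algebraMap K K' f) = algebraMap K K' (G i f))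
    (σ : (Σ j, Fin (r j)) ⊕ Fin s ≃ Fin e) {f : (Σ j, Fin (r j)) → K'} {z : Fin s → K'}
    (hz : ∀ l, Q.Reg (z l)) :
    Ge Q (-ε) (mdet (fun c => G' (σ c)) f z) ∧
      ((∀ z ∈ L, z ≠ 0 → P.ord z = 0) → (∀ l, Q.ord (f l) = 0) →
        Ge Q (1 - ε) (mdet (fun c => G' (σ c)) f z)) := by
  classical
  choose κ hκ0 hκ using fun l => exists_shift Q (hz l)
  obtain ⟨f', hf'⟩ : ∃ f' : Fin e → K', ∀ l, f' l =
      Sum.elim f (fun l => z l + algebraMap ℂ K' (κ l)) (σ.symm l) := ⟨_, fun _ => rfl⟩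
  have h := lift_det hL hQ hG hG' (f := f')
  obtain ⟨N, hN⟩ : ∃ N : Matrix (Fin e) (Fin e) K', N = Matrix.of fun i l => G' i (f' l) / f' l :=
    ⟨_, rfl⟩
  rw [← hN] at h
  have h1 : mdet (fun c => G' (σ c)) f z = N.det * ∏ l, (z l + algebraMap ℂ K' (κ l)) := by
    have h2 : (Matrix.of fun c c' => Sum.elim (fun c' : Σ j, Fin (r j) => G' (σ c) (f c') / f c')
        (fun l => G' (σ c) (z l)) c') = N.submatrix σ σ * Matrix.diagonal
          (Sum.elim (fun _ => 1) fun l => z l + algebraMap ℂ K' (κ l)) := by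
      ext c c'
      rw [Matrix.mul_diagonal, Matrix.submatrix_apply, hN, Matrix.of_apply, Matrix.of_apply, hf',
        Equiv.symm_apply_apply]
      rcases c' with c' | l
      · simp only [Sum.elim_inl, mul_one]
      · simp only [Sum.elim_inr]
        rw [div_mul_cancel₀ _ (hκ0 l), map_add]
        have h3 : G' (σ c) (algebraMap ℂ K' (κ l)) = 0 :=
          ((G' (σ c)).restrictScalars ℂ).map_algebraMap (κ l)
        rw [h3, add_zero]
    unfold mdet
    rw [h2, Matrix.det_mul, Matrix.det_submatrix_equiv_self, Matrix.det_diagonal,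
      Fintype.prod_sum_type]
    simp
  have h2 : Ge Q 0 (∏ l, (z l + algebraMap ℂ K' (κ l))) := by
    have := Ge.prod (P := Q) Finset.univ (fun l => z l + algebraMap ℂ K' (κ l)) (fun _ => 0)
      (fun l _ => Or.inr (hκ l).ge)
    simpa using this
  rw [h1]
  refine ⟨?_, fun h3 h4 => ?_⟩
  · simpa using h.1.mul h2
  · have h5 := h.2 h3 (fun l => by
      rw [hf']
      rcases σ.symm l with c | l
      · exact h4 c
      · exact hκ l)
    simpa using h5.mul h2

end lift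

section mix

variable {K : Type} [Field K] [Algebra ℂ K] {c s : ℕ} {r q : Fin c → ℕ}
variable {A : ∀ j, Fin (q j) → Fin (r j + 1) → K} {u : (Σ j, Fin (r j)) → K}

/-- the determinant of the derivatives of the coordinates -/
noncomputable def cdt {R : Type} [CommSemiring R] [Algebra R K]
    (D : (Σ j, Fin (r j)) ⊕ Fin s → Derivation R K K) (u : (Σ j, Fin (r j)) → K)
    (z : Fin s → K) : K :=
  (Matrix.of fun c c' => D c (Sum.elim u z c')).det

theorem lv_lmv (j : Fin c) (i : Fin (q j)) :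
    Pool.Agent.X140.AB.lv (A j i) (fun k => u ⟨j, k⟩) = lmv A u j i := by
  rw [lmv_eq]
  rfl

theorem mix_quo {D : (Σ j, Fin (r j)) ⊕ Fin s → Derivation ℂ K K}
    (hD : ∀ c j i k, D c (A j i k) = 0) (hl : ∀ j i, lmv A u j i ≠ 0)
    (I : ∀ j, Fin (r j + 1) → Fin (q j)) (z : Fin s → K) :
    mdet D (quo A u I) z * ∏ j, ∏ k, lmv A u j (I j k) = cdt D u z * cdet A I := by
  have h1 := Pool.Agent.X140.AB.tot_log (a := A) (x := fun j k => u ⟨j, k⟩) I
    (fun j p => by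
      rw [lv_lmv]
      exact hl j _) z D hD
  have h2 : (Matrix.of fun c c' => D c (Sum.elim (fun c' : Σ j, Fin (r j) =>
      (fun j k => u ⟨j, k⟩ : ∀ j, Fin (r j) → K) c'.1 c'.2) z c')).det = cdt D u z := rfl
  rw [h2] at h1
  have h3 : (Matrix.of fun c c' => Sum.elim (fun c' : Σ j, Fin (r j) =>
      D c (Pool.Agent.X140.AB.lv (A c'.1 (I c'.1 c'.2.succ)) (fun k => u ⟨c'.1, k⟩) /
        Pool.Agent.X140.AB.lv (A c'.1 (I c'.1 0)) (fun k => u ⟨c'.1, k⟩)) /
        (Pool.Agent.X140.AB.lv (A c'.1 (I c'.1 c'.2.succ)) (fun k => u ⟨c'.1, k⟩) /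
          Pool.Agent.X140.AB.lv (A c'.1 (I c'.1 0)) (fun k => u ⟨c'.1, k⟩)))
      (fun l => D c (z l)) c').det = mdet D (quo A u I) z := by
    simp only [lv_lmv]
    rfl
  rw [h3] at h1
  rw [← h1]
  have h4 : ∏ j, Pool.Agent.X140.AB.ef (A j) (fun k => u ⟨j, k⟩) (I j) =
      cdet A I / ∏ j, ∏ k, lmv A u j (I j k) := by
    unfold cdet Pool.Agent.X140.AB.ef Pool.Agent.X140.AB.dt
    rw [Finset.prod_div_distrib]
    simp only [lv_lmv]
  have h5 : ∏ j, ∏ k, lmv A u j (I j k) ≠ 0 :=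
    Finset.prod_ne_zero_iff.2 fun j _ => Finset.prod_ne_zero_iff.2 fun k _ => hl _ _
  rw [h4]
  field_simp

/-- **The estimate at the places which are trivial on the coefficients.** -/
theorem mix_lc {M : ℕ} {P : Place ℂ K} {v : ∀ j, Fin (q j) → ℕ}
    (hs : ∀ j, ∑ i, v j i = (r j + 1) * M) {C : K} (hC : Ge P 0 C)
    {I : ∀ j, Fin (r j + 1) → Fin (q j)}
    (hdet : ∀ j, (Matrix.of fun k a => A j (I j k) a).det ≠ 0 ∧
      P.ord (Matrix.of fun k a => A j (I j k) a).det = 0)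
    (hl : ∀ j i, lmv A u j i ≠ 0) {D : (Σ j, Fin (r j)) ⊕ Fin s → Derivation ℂ K K}
    (hD : ∀ c j i k, D c (A j i k) = 0) {z : Fin s → K} {ν : ℤ}
    (hN : Ge P (-ν) (mdet D (quo A u I) z))
    {c' : Fin c → ℤ} {ε : ∀ j, Fin (q j) → ℕ} (ho : ∀ j, MOrd P (A j) (hcd u j) (c' j) (ε j)) :
    Ge P (∑ j, ((M : ℤ) * ∑ k, (ε j (I j k) : ℤ) - ∑ i, (v j i : ℤ) * ε j i) - M * ν)
      (C * cdt D u z ^ M / ∏ j, ∏ i, lmv A u j i ^ v j i) := by
  classical
  have hlo : ∀ j i, P.ord (lmv A u j i) = c' j + ε j i := fun j i => (ho j).2.2 i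
  have hcd0 : cdet A I ≠ 0 := Finset.prod_ne_zero_iff.2 fun j _ => (hdet j).1
  have hcdo : P.ord (cdet A I) = 0 := by
    unfold cdet
    rw [ord_prod P _ _ fun j => (hdet j).1]
    exact Finset.sum_eq_zero fun j _ => (hdet j).2
  obtain ⟨Λ, hΛ⟩ : ∃ Λ, Λ = ∏ j, ∏ k, lmv A u j (I j k) := ⟨_, rfl⟩
  have hΛ0 : Λ ≠ 0 := by
    rw [hΛ]
    exact Finset.prod_ne_zero_iff.2 fun j _ => Finset.prod_ne_zero_iff.2 fun i _ => hl _ _
  obtain ⟨den, hden⟩ : ∃ den, den = ∏ j, ∏ i, lmv A u j i ^ v j i := ⟨_, rfl⟩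
  have hden0 : den ≠ 0 := by
    rw [hden]
    exact Finset.prod_ne_zero_iff.2 fun j _ => Finset.prod_ne_zero_iff.2 fun i _ =>
      pow_ne_zero _ (hl j i)
  have hΛo : P.ord Λ = ∑ j, ((r j + 1 : ℕ) * c' j + ∑ k, (ε j (I j k) : ℤ)) := by
    rw [hΛ, ord_prod P _ _ fun j => Finset.prod_ne_zero_iff.2 fun i _ => hl _ _]
    refine Finset.sum_congr rfl fun j _ => ?_
    rw [ord_prod P _ _ fun k => hl _ _]
    simp only [hlo]
    rw [Finset.sum_add_distrib, Finset.sum_const, Finset.card_univ, Fintype.card_fin, nsmul_eq_mul]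
  have hdo : P.ord den = ∑ j, ((M : ℤ) * ((r j + 1 : ℕ) * c' j) + ∑ i, (v j i : ℤ) * ε j i) := by
    rw [hden, ord_prod P _ _ fun j => Finset.prod_ne_zero_iff.2 fun i _ =>
      pow_ne_zero _ (hl j i)]
    refine Finset.sum_congr rfl fun j _ => ?_
    rw [ord_prod P _ _ fun i => pow_ne_zero _ (hl j i)]
    have h1 : ∀ i, P.ord (lmv A u j i ^ v j i) = v j i * c' j + v j i * ε j i := by
      intro i
      rw [P.ord_pow, hlo]
      ring
    simp only [h1]
    rw [Finset.sum_add_distrib, ← Finset.sum_mul]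
    congr 1
    have h2 : ∑ i, (v j i : ℤ) = (r j + 1 : ℕ) * M := by exact_mod_cast hs j
    rw [h2]
    ring
  obtain ⟨N, hNe⟩ : ∃ N, N = mdet D (quo A u I) z := ⟨_, rfl⟩
  have hNge : Ge P (-ν) N := by
    rw [hNe]
    exact hN
  have hmain := mix_quo hD hl I z
  rw [← hNe, ← hΛ] at hmain
  obtain ⟨Dt, hDt⟩ : ∃ Dt, Dt = cdt D u z := ⟨_, rfl⟩
  rw [← hDt] at hmain
  have hDe : Dt = N * Λ / cdet A I := by
    rw [hmain, mul_div_cancel_right₀ _ hcd0]
  have h1 : C * cdt D u z ^ M / ∏ j, ∏ i, lmv A u j i ^ v j i =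
      C * (N ^ M * (Λ ^ M / (cdet A I ^ M * den))) := by
    rw [← hDt, ← hden, hDe, div_pow, mul_pow]
    field_simp
  rw [h1]
  have h2 := hC.mul ((hNge.pow M).mul (Pool.Agent.W602.GT.ge_ord P (Λ ^ M / (cdet A I ^ M * den))))
  refine h2.mono (le_of_eq ?_)
  rw [P.ord_div (pow_ne_zero _ hΛ0) (mul_ne_zero (pow_ne_zero _ hcd0) hden0),
    P.ord_mul (pow_ne_zero _ hcd0) hden0, P.ord_pow, P.ord_pow, hcdo, hΛo, hdo, Finset.mul_sum]
  have h3 : ∑ j, ((M : ℤ) * ∑ k, (ε j (I j k) : ℤ) - ∑ i, (v j i : ℤ) * ε j i) =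
      ∑ j, ((M : ℤ) * ((r j + 1 : ℕ) * c' j + ∑ k, (ε j (I j k) : ℤ))) -
      ∑ j, ((M : ℤ) * ((r j + 1 : ℕ) * c' j) + ∑ i, (v j i : ℤ) * ε j i) := by
    rw [← Finset.sum_sub_distrib]
    refine Finset.sum_congr rfl fun j _ => ?_
    ring
  rw [h3]
  ring

/-- the estimate at the places at which the vector fields are logarithmic -/
theorem mix_log {M : ℕ} {P : Place ℂ K} {v : ∀ j, Fin (q j) → ℕ}
    {J : Fin M → ∀ j, Fin (r j + 1) → Fin (q j)}
    (hJ : ∀ j (f : Fin (q j) → K), ∏ t, ∏ k, f (J t j k) = ∏ i, f i ^ v j i)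
    (hl : ∀ j i, lmv A u j i ≠ 0) {D : (Σ j, Fin (r j)) ⊕ Fin s → Derivation ℂ K K}
    (hD : ∀ c j i k, D c (A j i k) = 0) {z : Fin s → K} (hz : ∀ l, P.Reg (z l))
    (hlog : ∀ c (f : K), Ge P 0 (D c f / f)) :
    Ge P 0 ((∏ t, cdet A (J t)) * cdt D u z ^ M / ∏ j, ∏ i, lmv A u j i ^ v j i) := by
  have hden : ∏ j, ∏ i, lmv A u j i ^ v j i ≠ 0 :=
    Finset.prod_ne_zero_iff.2 fun j _ => Finset.prod_ne_zero_iff.2 fun i _ => pow_ne_zero _ (hl j i)
  have h1 : ∏ t : Fin M, ∏ j, ∏ k, lmv A u j (J t j k) = ∏ j, ∏ i, lmv A u j i ^ v j i := by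
    rw [Finset.prod_comm]
    exact Finset.prod_congr rfl fun j _ => hJ j _
  have h3 : (∏ t, cdet A (J t)) * cdt D u z ^ M / ∏ j, ∏ i, lmv A u j i ^ v j i =
      ∏ t, mdet D (quo A u (J t)) z := by
    rw [div_eq_iff hden, ← h1, ← Finset.prod_mul_distrib]
    have h2 : ∀ t : Fin M, mdet D (quo A u (J t)) z * ∏ j, ∏ k, lmv A u j (J t j k) =
        cdt D u z * cdet A (J t) := fun t => mix_quo hD hl (J t) z
    rw [Finset.prod_congr rfl fun t _ => h2 t, Finset.prod_mul_distrib, Finset.prod_const,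
      Finset.card_univ, Fintype.card_fin, mul_comm]
  rw [h3]
  have h4 := Ge.prod (P := P) Finset.univ (fun t : Fin M => mdet D (quo A u (J t)) z)
    (fun _ => 0) (fun t _ => by
      refine ge_det' P _ 0 (fun _ _ => 0) (fun i l => ?_) fun _ => by simp
      rcases l with l | l
      · simp only [Matrix.of_apply, Sum.elim_inl]
        exact hlog i _
      · simp only [Matrix.of_apply, Sum.elim_inr]
        by_cases h0 : z l = 0
        · left
          rw [h0, map_zero]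
        · have h5 : D i (z l) = D i (z l) / z l * z l := by field_simp
          rw [h5]
          have h6 : Ge P 0 (z l) := (reg_iff_ge _ _).1 (hz l)
          simpa using (hlog i (z l)).mul h6)
  simpa using h4

end mix

end Pool.Agent.X140.FL
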