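import Pool.Agent.X140.FL.LcoLow
import Pool.Agent.X140.FL.PairDefs
import Pool.Agent.X180.OC.Top
import Pool.Agent.X327.LcGam

/-!
Pairs over towers whose top fibres correspond to products of orbifolds over the constants and moving
arrangements of hyperplanes: nonvanishing and abundance.
-/

set_option autoImplicit false
set_option linter.overlappingInstances false

open FF Pool.Agent.W602.GT Pool.Agent.Y172 Pool.Agent.Y191 Pool.Agent.X180.Orb
open Pool.Agent.X180.OP Pool.Agent.X180.OC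
open Pool.Agent.X180.TP (dims exists_idx)
open Pool.Agent.X180.Tow (HasForms dn trdeg_dn hor_nonneg hor_le)
open Pool.Agent.X180.Iso (hor)

namespace Pool.Agent.X140.FL

section

variable {K K' : Type} [Field K] [Field K'] [Algebra ℂ K] [Algebra ℂ K'] [Algebra K K']
  [IsScalarTower ℂ K K'] [FiniteDimensional K K'] {c f : ℕ} {r q : Fin c → ℕ}
variable {A : ∀ j, Fin (q j) → Fin (r j + 1) → K'} {u : (Σ j, Fin (r j)) → K'}
variable {L : IntermediateField ℂ K} {w : ∀ j, Fin (q j) → ℚ} {M : IntermediateField ℂ K'}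

/-- no condition at the places where the boundary has the coefficient one -/
theorem mult_full {a : Place ℂ M → ℝ} (ha : ∀ p, 0 ≤ a p) (hA : LcArr (upF K' L) A w)
    (hw0 : ∀ j i, 0 ≤ w j i) (hws : ∀ j, (r j + 1 : ℚ) ≤ ∑ i, w j i) {X : Set (Place ℂ K)}
    {δ : Place ℂ K → ℝ} (hH : ProductMultiplicities L M a A u w {P | P ∈ X ∧ δ P < 1} δ) :
    ProductMultiplicities L M a A u w X δ := by
  intro P hP htr Q ε hQ c' e ho
  by_cases hδ : δ P < 1
  · exact hH P ⟨hP, hδ⟩ htr Q ε hQ c' e ho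
  have hε0 : (0 : ℝ) ≤ ε := Nat.cast_nonneg _
  have h1 : (ε : ℝ) * (1 - δ P) ≤ 0 := mul_nonpos_of_nonneg_of_nonpos hε0 (by linarith)
  have hup : ∀ f ∈ upF K' L, f ≠ 0 → Q.ord f = 0 := by
    rintro f hf hf0
    obtain ⟨a, ha, rfl⟩ := mem_upF.1 hf
    have ha0 : a ≠ 0 := fun h => hf0 (by rw [h, map_zero])
    rw [hQ.2, htr a ha ha0, mul_zero]
  have h2 : (0 : ℝ) ≤ ∑ j, ((mx A j (e j) : ℝ) - ∑ i, (w j i : ℝ) * e j i) := by
    refine Finset.sum_nonneg fun j _ => sub_nonneg.2 ?_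
    have h2 := le_mx hA hw0 hws j (rk_mord hA hup j (ho j))
    have h3 := (Rat.cast_le (K := ℝ)).2 h2
    push_cast at h3
    exact h3
  refine ⟨fun _ => h1.trans ?_, fun p ν _ => h1.trans
    (add_nonneg h2 (mul_nonneg (Nat.cast_nonneg _) (ha p)))⟩
  split_ifs
  · exact h2
  · exact zero_le_one

theorem mult_hor {a : Place ℂ M → ℝ} {X : Set (Place ℂ K)}
    {δ : Place ℂ K → ℝ} (h : ProductMultiplicities L M a A u w X δ) :
    ProductMultiplicities L M a A u w X (hor L δ) := by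
  intro P hP hPL
  have h1 : hor L δ P = δ P := by
    unfold hor
    rw [if_pos hPL]
  rw [h1]
  exact h P hP hPL

/-- the coordinates over the compositum -/
theorem basis_comp (hL : Algebra.trdeg L K = ((∑ j, r j) + f : ℕ)) (hM : Algebra.trdeg ℂ M = f)
    (hdom : ∀ z : K', IsAlgebraic (IntermediateField.adjoin ℂ ((upF K' L : Set K') ∪
      ((M : Set K') ∪ Set.range u))) z) :
    IsTranscendenceBasis (IntermediateField.adjoin ℂ ((upF K' L : Set K') ∪ (M : Set K'))) u := by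
  classical
  have hU : Algebra.trdeg (upF K' L) K' = ((∑ j, r j) + f : ℕ) := trdeg_upF hL
  obtain ⟨y, E, hy, hE⟩ := exists_crd (k := ℂ) (K := M) hM
  obtain ⟨φ, hφ⟩ : ∃ φ : (Σ j, Fin (r j)) ≃ Fin (∑ j, r j), φ = finSigmaFinEquiv := ⟨_, rfl⟩
  obtain ⟨σ, hσ⟩ : ∃ σ : (Σ j, Fin (r j)) ⊕ Fin f ≃ Fin ((∑ j, r j) + f),
    σ = (Equiv.sumCongr φ (Equiv.refl _)).trans finSumFinEquiv := ⟨_, rfl⟩
  have hdom1 : ∀ z : K', IsAlgebraic (IntermediateField.adjoin ℂ ((upF K' L : Set K') ∪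
      ((M : Set K') ∪ Set.range (fun i => u (φ.symm i))))) z := by
    have h1 : Set.range (fun i => u (φ.symm i)) = Set.range u := φ.symm.surjective.range_comp u
    rw [h1]
    exact hdom
  have hyU : IsTranscendenceBasis (upF K' L)
      (Fin.append (fun i => u (φ.symm i)) (fun j => ((y j : M) : K'))) :=
    Pool.Agent.X140.EF.basis_mix (upF K' L) M hU hy _ hdom1
  have hyS : IsTranscendenceBasis (upF K' L) (Sum.elim u (fun j => ((y j : M) : K'))) := by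
    have h1 := hyU.comp_equiv σ
    convert h1 using 1
    funext x
    rw [Function.comp_apply, hσ]
    rcases x with x | x
    · simp
    · simp
  exact basis_over hy hyS.1 hdom

end

variable {K : Type} [Field K] [Algebra ℂ K]

/-- the forms -/
theorem top_forms {N l c f κ : ℕ}
    {E : Fin (l + 1) → IntermediateField ℂ K} {D : Fin (l + 1) → ℕ} {e lam : Fin l → ℕ}
    {r s : Fin c → ℕ} {y : Fin (N + 1) → K} {Δ : Place ℂ K → ℚ} {S : Set (Place ℂ K)}
    (hS : ∀ P ∈ S, IsPrimeDivisor y P) (hy : IsPair y (D (Fin.last l) + f + ∑ j, r j) Δ)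
    (hT : IsTower {P | P ∈ S ∧ Δ P < 1} (fun P => (Δ P : ℝ)) E D e lam) {w : ∀ j, Fin (s j) → ℚ}
    (hF : ProductFibres y (D (Fin.last l) + f + ∑ j, r j) Δ {P | P ∈ S ∧ Δ P < 1}
      (E (Fin.last l)) f κ r s w)
    (hws : ∀ j, (r j + 1 : ℚ) ≤ ∑ i, w j i) :
    HasForms (D 0 + (∑ i, e i + (∑ j, r j + f))) S (hor (E 0) fun P => (Δ P : ℝ)) (E 0)
      (∑ i, e i + (∑ j, r j + f)) (∑ i, lam i + (κ + big r s w)) := by
  obtain ⟨hw, K', _, _, _, _, _, M, a, B, u, hess, hM, ha, hk, hB, hdom, hH, hC⟩ := hF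
  obtain ⟨κ', hκ, hκs⟩ := exists_idx r s w
  have hset : {P | P ∈ S ∧ Δ P < 1} = {P | P ∈ S ∧ ((Δ P : ℚ) : ℝ) < 1} := by
    ext P
    change (P ∈ S ∧ Δ P < 1) ↔ (P ∈ S ∧ ((Δ P : ℚ) : ℝ) < 1)
    norm_cast
  rw [hset] at hT hH
  have hT' := tower_full hT
  have hH' := mult_full ha hB (fun j i => ((hw j).2 i).1) hws hH
  have hδ : ∀ P ∈ S, (0 : ℝ) ≤ (Δ P : ℝ) := fun P hP =>
    Rat.cast_nonneg.2 (hy.2.2.1 P (hS P hP))
  have hn0 : D (Fin.last l) + f + ∑ j, r j = D (Fin.last l) + ((∑ j, r j) + f) := by omega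
  have hK : Algebra.trdeg ℂ K = (D (Fin.last l) + ((∑ j, r j) + f) : ℕ) := by
    rw [hy.2.1, hn0]
  have h0 : HasForms (D (Fin.last l) + ((∑ j, r j) + f)) S
      (hor (E (Fin.last l)) fun P => (Δ P : ℝ)) (E (Fin.last l)) ((∑ j, r j) + f)
      (κ + Pool.Agent.X180.TP.big r s w) :=
    lco_low hK (Pool.Agent.X180.Iso.trdeg_rel' hK (hT.1 _)) M hM hB
      (fun j i => ((hw j).2 i).1) hws hdom hκ hκs (fun p _ => ha p) (by
        obtain ⟨m, hm, ω, h1, h2⟩ := hk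
        exact ⟨m, hm, ω, fun b => ⟨(h1 b).1, fun p _ => (h1 b).2 p⟩, h2⟩)
      (fun P hP => hor_nonneg (hδ P hP)) (mult_hor hH')
  have h1 := tower_forms hδ hT' hK rfl h0
  have hn : D (Fin.last l) + ((∑ j, r j) + f) = D 0 + (∑ i, e i + (∑ j, r j + f)) := by
    rw [dims fun i => (hT.2 i).2.1]
    omega
  rw [hn] at h1
  exact h1

/-- **Nonvanishing.** -/
theorem top_non {N l c k f κ : ℕ}
    {E : Fin (l + 1) → IntermediateField ℂ K} {D : Fin (l + 1) → ℕ} {e lam : Fin l → ℕ}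
    {r s : Fin c → ℕ} {y : Fin (N + 1) → K} {Δ : Place ℂ K → ℚ}
    (hy : IsPair y (D (Fin.last l) + f + ∑ j, r j) Δ)
    (hT : IsTower {P | IsPrimeDivisor y P ∧ Δ P < 1} (fun P => (Δ P : ℝ)) E D e lam)
    {w : ∀ j, Fin (s j) → ℚ}
    (hF : ProductFibres y (D (Fin.last l) + f + ∑ j, r j) Δ {P | IsPrimeDivisor y P ∧ Δ P < 1}
      (E (Fin.last l)) f κ r s w)
    (hbase : ∀ lam' : ℕ, HasForms (D 0 + (∑ i, e i + (∑ j, r j + f))) {P | IsPrimeDivisor y P}
      (hor (E 0) fun P => (Δ P : ℝ)) (E 0) (∑ i, e i + (∑ j, r j + f)) lam' →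
      KodairaGe (D 0 + (∑ i, e i + (∑ j, r j + f))) {P | IsPrimeDivisor y P}
        (fun P => (Δ P : ℝ)) (k + lam')) :
    Nonvanishing y (D (Fin.last l) + f + ∑ j, r j) Δ (k + ∑ i, lam i + κ + big r s w) r s w := by
  have h1 := top_forms (S := {P | IsPrimeDivisor y P}) (fun _ h => h) hy hT hF
  obtain ⟨hw, K', _, _, _, _, _, M, a, B, u, hess, hM, ha, hk, hB, hdom, hH, hC⟩ := hF
  have hn0 : D (Fin.last l) + f + ∑ j, r j = D (Fin.last l) + ((∑ j, r j) + f) := by omega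
  have hK : Algebra.trdeg ℂ K = (D (Fin.last l) + ((∑ j, r j) + f) : ℕ) := by
    rw [hy.2.1, hn0]
  have hu := basis_comp (Pool.Agent.X180.Iso.trdeg_rel' hK (hT.1 _)) hM hdom
  have hB' := lcArr_up hB (L' := IntermediateField.adjoin ℂ
    ((upF K' (E (Fin.last l)) : Set K') ∪ (M : Set K')))
    (fun z hz => IntermediateField.subset_adjoin _ _ (Or.inl hz))
  have hn : D (Fin.last l) + f + ∑ j, r j = D 0 + (∑ i, e i + (∑ j, r j + f)) := by
    rw [dims fun i => (hT.2 i).2.1]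
    omega
  refine ⟨fun hws => ?_, (lc_ab hy.1 hy.2.1 hy.2.2 hB'.1 hu (fun j => (hw j).1)
    (fun j i => ((hw j).2 i).1) (fun j i => ((hw j).2 i).2) hC).1⟩
  refine lc_nv hy.1 hy.2.1 hy.2.2 hB'.1 hu (fun j => (hw j).1)
    (fun j i => ((hw j).2 i).1) (fun j i => ((hw j).2 i).2) hC hws (by omega) ?_
  have h2 := hbase _ (h1 hws)
  rw [← hn, ← add_assoc k, ← add_assoc (k + ∑ i, lam i)] at h2
  exact h2

theorem big_sum {c : ℕ} {r s : Fin c → ℕ} {w : ∀ j, Fin (s j) → ℚ} {p : ℕ}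
    (hws : ∀ j, (r j + 1 : ℚ) ≤ ∑ i, w j i) :
    p + ∑ j, r j = p + big r s w + ∑ j, (if ∑ i, w j i = r j + 1 then r j else 0) := by
  rw [add_assoc]
  congr 1
  unfold big
  rw [← Finset.sum_add_distrib]
  refine Finset.sum_congr rfl fun j _ => ?_
  have h3 := hws j
  by_cases h4 : ∑ i, w j i = r j + 1
  · rw [if_pos h4, if_neg (by rw [h4]; exact lt_irrefl _), zero_add]
  · rw [if_neg h4, if_pos (lt_of_le_of_ne h3 (Ne.symm h4)), add_zero]

/-- **Equality.** -/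
theorem top_eq {N l c f : ℕ}
    {E : Fin (l + 1) → IntermediateField ℂ K} {D : Fin (l + 1) → ℕ} {e lam : Fin l → ℕ}
    {r s : Fin c → ℕ} {y : Fin (N + 1) → K} {Δ : Place ℂ K → ℚ}
    (hy : IsPair y (D (Fin.last l) + f + ∑ j, r j) Δ)
    (hT : IsTower {P | IsPrimeDivisor y P ∧ Δ P < 1} (fun P => (Δ P : ℝ)) E D e lam)
    (hle : ∀ i, lam i = e i) {w : ∀ j, Fin (s j) → ℚ}
    (hF : ProductFibres y (D (Fin.last l) + f + ∑ j, r j) Δ {P | IsPrimeDivisor y P ∧ Δ P < 1}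
      (E (Fin.last l)) f f r s w)
    (hbase : ∀ lam' : ℕ, HasForms (D 0 + (∑ i, e i + (∑ j, r j + f))) {P | IsPrimeDivisor y P}
      (hor (E 0) fun P => (Δ P : ℝ)) (E 0) (∑ i, e i + (∑ j, r j + f)) lam' →
      KodairaGe (D 0 + (∑ i, e i + (∑ j, r j + f))) {P | IsPrimeDivisor y P}
        (fun P => (Δ P : ℝ)) (D 0 + lam')) (hws : ∀ j, (r j + 1 : ℚ) ≤ ∑ i, w j i) :
    kodairaDim y (D (Fin.last l) + f + ∑ j, r j) Δ =
        ((D (Fin.last l) + f + big r s w : ℕ) : WithBot ℕ) ∧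
      ∀ A, Effective y A → Integral y A → numericalDim y (D (Fin.last l) + f + ∑ j, r j) Δ A =
        ((D (Fin.last l) + f + big r s w : ℕ) : EReal) := by
  have h1 := top_forms (S := {P | IsPrimeDivisor y P}) (fun _ h => h) hy hT hF hws
  obtain ⟨hw, K', _, _, _, _, _, M, a, B, u, hess, hM, ha, hk, hB, hdom, hH, hC⟩ := hF
  have hn0 : D (Fin.last l) + f + ∑ j, r j = D (Fin.last l) + ((∑ j, r j) + f) := by omega
  have hK : Algebra.trdeg ℂ K = (D (Fin.last l) + ((∑ j, r j) + f) : ℕ) := by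
    rw [hy.2.1, hn0]
  have hu := basis_comp (Pool.Agent.X180.Iso.trdeg_rel' hK (hT.1 _)) hM hdom
  have hB' := lcArr_up hB (L' := IntermediateField.adjoin ℂ
    ((upF K' (E (Fin.last l)) : Set K') ∪ (M : Set K')))
    (fun z hz => IntermediateField.subset_adjoin _ _ (Or.inl hz))
  have hsum : D (Fin.last l) = D 0 + ∑ i, e i := dims fun i => (hT.2 i).2.1
  have hn : D (Fin.last l) + f + ∑ j, r j = D 0 + (∑ i, e i + (∑ j, r j + f)) := by
    rw [hsum]
    omega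
  refine (lc_ab hy.1 hy.2.1 hy.2.2 hB'.1 hu (fun j => (hw j).1)
    (fun j i => ((hw j).2 i).1) (fun j i => ((hw j).2 i).2) hC).2 _ hws (big_sum hws) ?_
  rw [show ∑ i, lam i = ∑ i, e i from Finset.sum_congr rfl fun i _ => hle i] at h1
  have h3 := hbase _ h1
  rw [← hn, ← add_assoc (D 0), ← hsum, ← add_assoc (D (Fin.last l))] at h3
  exact h3

/-- **Abundance.** -/
theorem top_ab {N l c f : ℕ}
    {E : Fin (l + 1) → IntermediateField ℂ K} {D : Fin (l + 1) → ℕ} {e lam : Fin l → ℕ}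
    {r s : Fin c → ℕ} {y : Fin (N + 1) → K} {Δ Γ A : Place ℂ K → ℚ}
    (hy : IsPair y (D (Fin.last l) + f + ∑ j, r j) Δ) (hΓ : Effective y Γ) (hA : Effective y A)
    (hps : PseudoEffective y (D (Fin.last l) + f + ∑ j, r j) (Δ - Γ) A)
    (hT : IsTower {P | P ∈ Relevant y (D (Fin.last l) + f + ∑ j, r j) Δ Γ A ∧ Δ P < 1}
      (fun P => (Δ P : ℝ)) E D e lam) (hle : ∀ i, lam i = e i) {w : ∀ j, Fin (s j) → ℚ}
    (hF : ProductFibres y (D (Fin.last l) + f + ∑ j, r j) Δ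
      {P | P ∈ Relevant y (D (Fin.last l) + f + ∑ j, r j) Δ Γ A ∧ Δ P < 1}
      (E (Fin.last l)) f f r s w)
    (hbase : ∀ lam' : ℕ, HasForms (D 0 + (∑ i, e i + (∑ j, r j + f)))
      (Relevant y (D (Fin.last l) + f + ∑ j, r j) Δ Γ A)
      (hor (E 0) fun P => (Δ P : ℝ)) (E 0) (∑ i, e i + (∑ j, r j + f)) lam' →
      KodairaGe (D 0 + (∑ i, e i + (∑ j, r j + f)))
        (Relevant y (D (Fin.last l) + f + ∑ j, r j) Δ Γ A)
        (fun P => (Δ P : ℝ)) (D 0 + lam')) :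
    Abundance y (D (Fin.last l) + f + ∑ j, r j) Δ Γ (D (Fin.last l) + f) r s w := by
  have h1 := top_forms (S := Relevant y (D (Fin.last l) + f + ∑ j, r j) Δ Γ A)
    (fun _ h => h.1) hy hT hF
  obtain ⟨hw, K', _, _, _, _, _, M, a, B, u, hess, hM, ha, hk, hB, hdom, hH, hC⟩ := hF
  have hn0 : D (Fin.last l) + f + ∑ j, r j = D (Fin.last l) + ((∑ j, r j) + f) := by omega
  have hK : Algebra.trdeg ℂ K = (D (Fin.last l) + ((∑ j, r j) + f) : ℕ) := by
    rw [hy.2.1, hn0]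
  have hu := basis_comp (Pool.Agent.X180.Iso.trdeg_rel' hK (hT.1 _)) hM hdom
  have hB' := lcArr_up hB (L' := IntermediateField.adjoin ℂ
    ((upF K' (E (Fin.last l)) : Set K') ∪ (M : Set K')))
    (fun z hz => IntermediateField.subset_adjoin _ _ (Or.inl hz))
  have hsum : D (Fin.last l) = D 0 + ∑ i, e i := dims fun i => (hT.2 i).2.1
  have hn : D (Fin.last l) + f + ∑ j, r j = D 0 + (∑ i, e i + (∑ j, r j + f)) := by
    rw [hsum]
    omega
  have hgood : {P | IsPrimeDivisor y P ∧ Γ P = 0 ∧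
      ¬ Diminished y (D (Fin.last l) + f + ∑ j, r j) Δ A P} =
      Relevant y (D (Fin.last l) + f + ∑ j, r j) Δ Γ A := by
    ext P
    change (IsPrimeDivisor y P ∧ Γ P = 0 ∧
      ¬ Diminished y (D (Fin.last l) + f + ∑ j, r j) Δ A P) ↔ (IsPrimeDivisor y P ∧
        ¬ (Γ P ≠ 0 ∨ Diminished y (D (Fin.last l) + f + ∑ j, r j) Δ A P))
    rw [not_or, not_not]
  obtain ⟨h4, h5⟩ := Pool.Agent.X327.lc_gam hy.1 hy.2.1 hy.2.2 hΓ hA hps hB'.1 hu
    (fun j => (hw j).1) (fun j i => ((hw j).2 i).1) (fun j i => ((hw j).2 i).2) hC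
    (a := D (Fin.last l) + f + big r s w) fun hws => ⟨big_sum hws, by
      rw [hgood]
      have h2 := h1 hws
      rw [show ∑ i, lam i = ∑ i, e i from Finset.sum_congr rfl fun i _ => hle i] at h2
      have h3 := hbase _ h2
      rw [← hn, ← add_assoc (D 0), ← hsum, ← add_assoc (D (Fin.last l))] at h3
      exact h3⟩
  exact ⟨h4, fun Δ' hΔ' => h5 Δ' (fun P hP => (hΔ' P hP).1) fun P hP => (hΔ' P hP).2⟩

end Pool.Agent.X140.FL
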